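import Mathlib

set_option autoImplicit false

/-! The definitions used by the statement: almost convexity of a group with respect to a generating
set, and sectional curvature of a Riemannian metric in the charts of a smooth manifold. -/

open scoped Manifold ContDiff Topology

namespace Pool.Agent.H65R2.AC

/-! ### Groups -/

/-- `s` is a generator or the inverse of a generator: `{g, g * s}` is an edge of the Cayley graph
of `S`. -/
def IsStep {G : Type*} [Group G] (S : Set G) (s : G) : Prop := s ∈ S ∨ s⁻¹ ∈ S

/-- The word length of `g` with respect to `S`: the least length of a word in the letters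
`S ∪ S⁻¹` with product `g`. This is the distance from `1` to `g` in the Cayley graph, and the
distance from `x` to `y` is `wordLen S (x⁻¹ * y)`. -/
noncomputable def wordLen {G : Type*} [Group G] (S : Set G) (g : G) : ℕ :=
  sInf {n | ∃ l : List G, l.length = n ∧ (∀ s ∈ l, IsStep S s) ∧ l.prod = g}

/-- `(G, S)` is almost convex: there is a constant `C` such that any two points `x, y` of a sphere
`S(r)`, `r > 0`, with `d(x, y) = 2` are joined by a path of length at most `C` in the Cayley graph
all of whose vertices `p 0, …, p n` lie in the ball `B(r)`. -/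
def AlmostConvex {G : Type*} [Group G] (S : Set G) : Prop :=
  ∃ C : ℕ, ∀ r : ℕ, 0 < r → ∀ x y : G, wordLen S x = r → wordLen S y = r →
    wordLen S (x⁻¹ * y) = 2 →
    ∃ (n : ℕ) (p : ℕ → G), n ≤ C ∧ p 0 = x ∧ p n = y ∧
      (∀ i < n, IsStep S ((p i)⁻¹ * p (i + 1))) ∧ ∀ i ≤ n, wordLen S (p i) ≤ r

/-! ### Curvature -/

section
variable {E : Type} [NormedAddCommGroup E] [NormedSpace ℝ E] {M : Type} [TopologicalSpace M]
  [ChartedSpace E M]

/-- The tangent vector `∂_u` at the point with coordinates `y` in the chart `e`: the image of the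
vector `u` under the derivative at `y` of the inverse chart. -/
noncomputable def tvec (e : OpenPartialHomeomorph M E) (y u : E) :
    TangentSpace 𝓘(ℝ, E) (e.symm y) :=
  mfderiv 𝓘(ℝ, E) 𝓘(ℝ, E) e.symm y u

variable [IsManifold 𝓘(ℝ, E) ∞ M]

/-- Smooth Riemannian metrics on the manifold `M` modelled on `E`: smooth Riemannian metrics on the
tangent bundle, in the sense of Mathlib. -/
abbrev Metric (E : Type) [NormedAddCommGroup E] [NormedSpace ℝ E] (M : Type) [TopologicalSpace M]
    [ChartedSpace E M] [IsManifold 𝓘(ℝ, E) ∞ M] : Type :=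
  Bundle.ContMDiffRiemannianMetric 𝓘(ℝ, E) ∞ E (fun x : M => TangentSpace 𝓘(ℝ, E) x)

/-- The scalar product `g_x(v, w)` of two tangent vectors at `x`. -/
noncomputable def pairing (g : Metric E M) (x : M) (v w : TangentSpace 𝓘(ℝ, E) x) : ℝ :=
  g.inner x v w

/-- The component `g(∂_u, ∂_v)` of the metric in the chart `e` at the point with coordinates
`y`. -/
noncomputable def comp (g : Metric E M) (e : OpenPartialHomeomorph M E) (y u v : E) : ℝ :=
  pairing g (e.symm y) (tvec e y u) (tvec e y v)

/-- `C y u v` are the coordinates of the covariant derivative `∇_{∂_u} ∂_v` of the Levi-Civita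
connection in the chart `e` (the Christoffel symbols), characterised by the Koszul formula
`2 g(∇_u v, w) = ∂_u g(v, w) + ∂_v g(u, w) - ∂_w g(u, v)`. -/
def IsChristoffel (g : Metric E M) (e : OpenPartialHomeomorph M E) (C : E → E → E → E) : Prop :=
  (∀ u v, ContDiffOn ℝ ∞ (fun y => C y u v) e.target) ∧
  ∀ y ∈ e.target, ∀ u v w : E, 2 * comp g e y (C y u v) w =
    fderiv ℝ (fun z => comp g e z v w) y u + fderiv ℝ (fun z => comp g e z u w) y v
      - fderiv ℝ (fun z => comp g e z u v) y w

/-- The curvature tensor `R(u, v) w = ∇_u ∇_v w - ∇_v ∇_u w` of the connection with Christoffel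
symbols `C`, on coordinate vectors. -/
noncomputable def riem (C : E → E → E → E) (y u v w : E) : E :=
  fderiv ℝ (fun z => C z v w) y u - fderiv ℝ (fun z => C z u w) y v + C y u (C y v w)
    - C y v (C y u w)

/-- The sectional curvature of the plane spanned by the coordinate vectors `u, v`. -/
noncomputable def sec (g : Metric E M) (e : OpenPartialHomeomorph M E) (C : E → E → E → E)
    (y u v : E) : ℝ :=
  comp g e y (riem C y u v v) u /
    (comp g e y u u * comp g e y v v - comp g e y u v ^ 2)

/-- All sectional curvatures of the metric `g` are nonpositive. -/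
def NonposCurved (g : Metric E M) : Prop :=
  ∀ e ∈ atlas E M, ∃ C, IsChristoffel g e C ∧
    ∀ y ∈ e.target, ∀ u v, LinearIndependent ℝ ![u, v] → sec g e C y u v ≤ 0

end

end Pool.Agent.H65R2.AC
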