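import Mathlib
import Pool.Agent.H65R2.AC.Statement

set_option autoImplicit false

/-! Word length and almost convexity of a group with respect to a generating set. -/

namespace Pool.Agent.H65R2.AC

section basic

variable {G : Type*} [Group G] {S : Set G}

theorem wordLen_le (l : List G) (hl : ∀ s ∈ l, IsStep S s) : wordLen S l.prod ≤ l.length :=
  Nat.sInf_le ⟨l, rfl, hl, rfl⟩

theorem exists_word (hS : Subgroup.closure S = ⊤) (g : G) :
    ∃ l : List G, (∀ s ∈ l, IsStep S s) ∧ l.prod = g := by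
  have hg : g ∈ (Subgroup.closure S).toSubmonoid := by rw [hS]; exact Subgroup.mem_top g
  rw [Subgroup.closure_toSubmonoid] at hg
  obtain ⟨l, h1, h2⟩ := Submonoid.exists_list_of_mem_closure hg
  exact ⟨l, fun s hs => by simpa [IsStep] using h1 s hs, h2⟩

theorem exists_word_len (hS : Subgroup.closure S = ⊤) (g : G) :
    ∃ l : List G, l.length = wordLen S g ∧ (∀ s ∈ l, IsStep S s) ∧ l.prod = g := by
  have h : (({n | ∃ l : List G, l.length = n ∧ (∀ s ∈ l, IsStep S s) ∧ l.prod = g}) :
      Set ℕ).Nonempty := by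
    obtain ⟨l, h1, h2⟩ := exists_word hS g
    exact ⟨l.length, l, rfl, h1, h2⟩
  exact Nat.sInf_mem h

/-- A function which increases by at most one along the edges is a lower bound for the length. -/
theorem le_wordLen (hS : Subgroup.closure S = ⊤) (Φ : G → ℤ) (h1 : Φ 1 ≤ 0)
    (h : ∀ g s, IsStep S s → Φ (g * s) ≤ Φ g + 1) (g : G) : Φ g ≤ wordLen S g := by
  obtain ⟨l, hl, hs, rfl⟩ := exists_word_len hS g
  rw [← hl]
  clear hl
  induction l using List.reverseRecOn with
  | nil => simpa using h1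
  | append_singleton l a ih =>
    rw [List.prod_append, List.prod_singleton, List.length_append, List.length_singleton]
    have h2 := ih (fun s hs' => hs s (List.mem_append_left _ hs'))
    have h3 := h l.prod a (hs a (by simp))
    push_cast
    linarith

theorem eq_one_of_wordLen_eq_zero (hS : Subgroup.closure S = ⊤) {g : G} (h : wordLen S g = 0) :
    g = 1 := by
  obtain ⟨l, hl, -, rfl⟩ := exists_word_len hS g
  rw [h, List.length_eq_zero_iff] at hl
  rw [hl, List.prod_nil]

theorem isStep_of_wordLen_eq_one (hS : Subgroup.closure S = ⊤) {g : G} (h : wordLen S g = 1) :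
    IsStep S g := by
  obtain ⟨l, hl, hs, rfl⟩ := exists_word_len hS g
  rw [h, List.length_eq_one_iff] at hl
  obtain ⟨a, rfl⟩ := hl
  simpa using hs a (by simp)

theorem IsStep.inv {s : G} (h : IsStep S s) : IsStep S s⁻¹ := by
  rcases h with h | h
  · right; simpa using h
  · left; exact h

end basic

/-- A strong failure of almost convexity: the paths are also allowed to stand still. -/
def NotACLazy {G : Type*} [Group G] (S : Set G) : Prop :=
  ∀ C : ℕ, ∃ (r : ℕ) (x y : G), 0 < r ∧ wordLen S x = r ∧ wordLen S y = r ∧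
    wordLen S (x⁻¹ * y) = 2 ∧
    ∀ (n : ℕ) (p : ℕ → G), n ≤ C → p 0 = x → p n = y →
      (∀ i < n, (p i)⁻¹ * p (i + 1) = 1 ∨ IsStep S ((p i)⁻¹ * p (i + 1))) →
      ∃ i ≤ n, r < wordLen S (p i)

/-- Failure of almost convexity passes from a retract `Q` to a finitely generated group `H`. -/
theorem exists_not_almostConvex_of_retract {Q H : Type*} [Group Q] [Group H] [Group.FG H]
    (ρ : H →* Q) (σ : Q →* H) (hρ : ∀ q, ρ (σ q) = q) (S : Set Q) (hSf : S.Finite)
    (hS : Subgroup.closure S = ⊤) (hN : NotACLazy S) :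
    ∃ T : Set H, T.Finite ∧ Subgroup.closure T = ⊤ ∧ ¬ AlmostConvex T := by
  obtain ⟨T₀, hT₀⟩ := (Group.fg_def.1 (inferInstance : Group.FG H))
  set K : Set H := (fun t => (σ (ρ t))⁻¹ * t) '' (T₀ : Set H) with hK
  set T : Set H := σ '' S ∪ K with hT
  have hKρ : ∀ k ∈ K, ρ k = 1 := by
    rintro _ ⟨t, -, rfl⟩
    simp [hρ]
  have hσcl : ∀ q : Q, σ q ∈ Subgroup.closure T := by
    intro q
    have h1 : q ∈ Subgroup.closure S := by rw [hS]; exact Subgroup.mem_top q
    have h2 : σ q ∈ (Subgroup.closure S).map σ := ⟨q, h1, rfl⟩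
    rw [MonoidHom.map_closure] at h2
    exact Subgroup.closure_mono Set.subset_union_left h2
  have hcl : Subgroup.closure T = ⊤ := by
    rw [eq_top_iff, ← hT₀, Subgroup.closure_le]
    intro t ht
    have h1 := hσcl (ρ t)
    have h2 : (σ (ρ t))⁻¹ * t ∈ Subgroup.closure T :=
      Subgroup.subset_closure (Or.inr ⟨t, ht, rfl⟩)
    have h3 := Subgroup.mul_mem _ h1 h2
    simpa using h3
  have hstep : ∀ s, IsStep T s → ρ s = 1 ∨ IsStep S (ρ s) := by
    rintro s ((⟨q, hq, rfl⟩ | hk) | (⟨q, hq, hqs⟩ | hk))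
    · right; left; rw [hρ]; exact hq
    · left; exact hKρ s hk
    · right; right
      rw [← map_inv, ← hqs, hρ]; exact hq
    · left
      have := hKρ _ hk
      rwa [map_inv, inv_eq_one] at this
  have hlen1 : ∀ h : H, wordLen S (ρ h) ≤ wordLen T h := by
    intro h
    obtain ⟨l, hl, hs, rfl⟩ := exists_word_len hcl h
    rw [← hl]
    clear hl
    suffices h' : ∀ l : List H, (∀ s ∈ l, IsStep T s) → ∃ l' : List Q, l'.length ≤ l.length ∧
        (∀ s ∈ l', IsStep S s) ∧ l'.prod = ρ l.prod by
      obtain ⟨l', h1, h2, h3⟩ := h' l hs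
      rw [← h3]
      exact (wordLen_le l' h2).trans h1
    intro l
    induction l with
    | nil => intro _; exact ⟨[], le_rfl, by simp, by simp⟩
    | cons a l ih =>
      intro hs
      obtain ⟨l', h1, h2, h3⟩ := ih (fun s hs' => hs s (List.mem_cons_of_mem _ hs'))
      rcases hstep a (hs a (by simp)) with h | h
      · refine ⟨l', by simp; omega, h2, ?_⟩
        rw [List.prod_cons, map_mul, h, one_mul, h3]
      · refine ⟨ρ a :: l', by simpa using h1, ?_, ?_⟩
        · intro s hs'
          rcases List.mem_cons.1 hs' with rfl | h'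
          · exact h
          · exact h2 s h'
        · rw [List.prod_cons, List.prod_cons, map_mul, h3]
  have hlen2 : ∀ q : Q, wordLen T (σ q) ≤ wordLen S q := by
    intro q
    obtain ⟨l, hl, hs, rfl⟩ := exists_word_len hS q
    rw [← hl, map_list_prod]
    refine (wordLen_le _ ?_).trans (by simp)
    intro s hs'
    obtain ⟨a, ha, rfl⟩ := List.mem_map.1 hs'
    rcases hs a ha with h | h
    · left; left; exact ⟨a, h, rfl⟩
    · right; left; exact ⟨a⁻¹, h, by simp⟩
  have hlen : ∀ q : Q, wordLen T (σ q) = wordLen S q := by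
    intro q
    refine le_antisymm (hlen2 q) ?_
    have := hlen1 (σ q)
    rwa [hρ] at this
  refine ⟨T, (hSf.image _).union (T₀.finite_toSet.image _), hcl, ?_⟩
  rintro ⟨C, hC⟩
  obtain ⟨r, x, y, hr, hx, hy, hxy, hno⟩ := hN C
  obtain ⟨n, p, hn, h0, h1, h2, h3⟩ := hC r hr (σ x) (σ y) ((hlen x).trans hx)
    ((hlen y).trans hy) (by rw [← map_inv, ← map_mul, hlen, hxy])
  obtain ⟨i, hi, hlt⟩ := hno n (fun i => ρ (p i)) hn (by rw [h0, hρ]) (by rw [h1, hρ]) (by
    intro i hi
    have := hstep _ (h2 i hi)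
    rwa [map_mul, map_inv] at this)
  have := h3 i hi
  have := hlen1 (p i)
  omega

end Pool.Agent.H65R2.AC
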