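import Mathlib
import Pool.Agent.H65R2.AC.Defs

set_option autoImplicit false

/-! The direct product of two free groups of rank 2 is not almost convex with respect to a certain
generating set. -/

namespace Pool.Agent.H65R2.AC.Free

open FreeGroup

/-- the free group of rank 2 -/
abbrev F := FreeGroup (Fin 2)

/-- the two free generators -/
def a : F := FreeGroup.of 0
/-- the two free generators -/
def b : F := FreeGroup.of 1

/-- The generating set of the direct product. -/
def S : Set (F × F) := {(a, a), (a, b), (b, a⁻¹), (b, b⁻¹), (1, a), (1, b)}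

theorem finite_S : S.Finite := by
  unfold S
  exact Set.toFinite _

/-- exponent sum of `a` minus the exponent sum of `b` -/
def χ (g : F) : ℤ := (FreeGroup.lift (![Multiplicative.ofAdd (1 : ℤ), Multiplicative.ofAdd (-1 : ℤ)]) g).toAdd
/-- exponent sum of `a` plus the exponent sum of `b` -/
def ε (g : F) : ℤ := (FreeGroup.lift (![Multiplicative.ofAdd (1 : ℤ), Multiplicative.ofAdd (1 : ℤ)]) g).toAdd

theorem χ_mul (g h : F) : χ (g * h) = χ g + χ h := by simp [χ]
theorem ε_mul (g h : F) : ε (g * h) = ε g + ε h := by simp [ε]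
theorem χ_one : χ 1 = 0 := by simp [χ]
theorem ε_one : ε 1 = 0 := by simp [ε]
theorem χ_inv (g : F) : χ g⁻¹ = - χ g := by simp [χ]
theorem ε_inv (g : F) : ε g⁻¹ = - ε g := by simp [ε]
theorem χ_a : χ a = 1 := by simp [χ, a]
theorem χ_b : χ b = -1 := by simp [χ, b]
theorem ε_a : ε a = 1 := by simp [ε, a]
theorem ε_b : ε b = 1 := by simp [ε, b]

theorem norm_a : a.norm = 1 := by simp [a]
theorem norm_b : b.norm = 1 := by simp [b]

theorem closure_S : Subgroup.closure S = ⊤ := by
  have hS : ∀ s ∈ S, s ∈ Subgroup.closure S := fun s hs => Subgroup.subset_closure hs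
  have h1 : ((1, a) : F × F) ∈ Subgroup.closure S := hS _ (by simp [S])
  have h2 : ((1, b) : F × F) ∈ Subgroup.closure S := hS _ (by simp [S])
  have h3 : ((a, 1) : F × F) ∈ Subgroup.closure S := by
    have := Subgroup.mul_mem _ (hS (a, a) (by simp [S])) (Subgroup.inv_mem _ h1)
    simpa using this
  have h4 : ((b, 1) : F × F) ∈ Subgroup.closure S := by
    have := Subgroup.mul_mem _ (hS (b, a⁻¹) (by simp [S])) h1
    simpa using this
  have h5 : ∀ g : F, ((g, 1) : F × F) ∈ Subgroup.closure S := by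
    intro g
    induction g using FreeGroup.induction_on with
    | C1 => exact Subgroup.one_mem _
    | of i =>
      fin_cases i
      · exact h3
      · exact h4
    | inv_of i h =>
      have := Subgroup.inv_mem _ h
      simpa using this
    | mul x y hx hy =>
      have := Subgroup.mul_mem _ hx hy
      simpa using this
  have h6 : ∀ g : F, ((1, g) : F × F) ∈ Subgroup.closure S := by
    intro g
    induction g using FreeGroup.induction_on with
    | C1 => exact Subgroup.one_mem _
    | of i =>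
      fin_cases i
      · exact h1
      · exact h2
    | inv_of i h =>
      have := Subgroup.inv_mem _ h
      simpa using this
    | mul x y hx hy =>
      have := Subgroup.mul_mem _ hx hy
      simpa using this
  rw [eq_top_iff]
  rintro ⟨g, h⟩ -
  have := Subgroup.mul_mem _ (h5 g) (h6 h)
  simpa using this

/-- The description of a step in `S`. -/
theorem isStep_iff (s : F × F) (h : IsStep S s) :
    (s.1.norm ≤ 1 ∧ χ s.1 = ε s.2) ∨ (s.1 = 1 ∧ |ε s.2| ≤ 1) := by
  rcases h with h | h
  · simp only [S, Set.mem_insert_iff, Set.mem_singleton_iff] at h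
    rcases h with rfl | rfl | rfl | rfl | rfl | rfl
    · left; simp [norm_a, χ_a, ε_a]
    · left; simp [norm_a, χ_a, ε_b]
    · left; simp [norm_b, χ_b, ε_a, ε_inv]
    · left; simp [norm_b, χ_b, ε_b, ε_inv]
    · right; simp [ε_a]
    · right; simp [ε_b]
  · obtain ⟨t, rfl⟩ : ∃ t, s = t⁻¹ := ⟨s⁻¹, by simp⟩
    rw [inv_inv] at h
    simp only [S, Set.mem_insert_iff, Set.mem_singleton_iff] at h
    rcases h with rfl | rfl | rfl | rfl | rfl | rfl
    · left; simp [norm_a, χ_a, ε_a, χ_inv, ε_inv]
    · left; simp [norm_a, χ_a, ε_b, χ_inv, ε_inv]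
    · left; simp [norm_b, χ_b, ε_a, χ_inv]
    · left; simp [norm_b, χ_b, ε_b, χ_inv]
    · right; simp [ε_a, ε_inv]
    · right; simp [ε_b, ε_inv]

theorem norm_le_one_abs {g : F} (h : g.norm ≤ 1) : |ε g| ≤ 1 := by
  have h1 : g = FreeGroup.mk g.toWord := g.mk_toWord.symm
  have h2 : g.toWord.length ≤ 1 := h
  match hw : g.toWord with
  | [] =>
    rw [hw] at h1
    rw [h1, ← FreeGroup.one_eq_mk, ε_one]
    simp
  | [(i, e)] =>
    rw [hw] at h1
    rw [h1]
    fin_cases i <;> cases e <;> simp [ε]
  | x :: y :: l =>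
    rw [hw] at h2
    simp at h2

/-- The first lower bound. -/
theorem bound1 (g : F × F) : ε g.1 ≤ wordLen S g := by
  refine le_wordLen closure_S (fun g => ε g.1) (by simp [ε_one]) ?_ g
  intro g s hs
  show ε (g.1 * s.1) ≤ ε g.1 + 1
  rw [ε_mul]
  have h : |ε s.1| ≤ 1 := by
    rcases isStep_iff s hs with ⟨h, -⟩ | ⟨h, -⟩
    · exact norm_le_one_abs h
    · rw [h, ε_one]; simp
  have := le_abs_self (ε s.1)
  linarith

/-- The second lower bound. -/
theorem bound2 (g : F × F) : (g.1.norm : ℤ) + χ g.1 - ε g.2 ≤ wordLen S g := by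
  refine le_wordLen closure_S (fun g => (g.1.norm : ℤ) + χ g.1 - ε g.2)
    (by simp [χ_one, ε_one]) ?_ g
  intro g s hs
  show ((g.1 * s.1).norm : ℤ) + χ (g.1 * s.1) - ε (g.2 * s.2) ≤
    (g.1.norm : ℤ) + χ g.1 - ε g.2 + 1
  rw [ε_mul, χ_mul]
  rcases isStep_iff s hs with ⟨h1, h2⟩ | ⟨h1, h2⟩
  · have h3 := FreeGroup.norm_mul_le g.1 s.1
    have h4 : ((g.1 * s.1).norm : ℤ) ≤ g.1.norm + s.1.norm := by exact_mod_cast h3
    have h5 : (s.1.norm : ℤ) ≤ 1 := by exact_mod_cast h1
    rw [h2]
    linarith
  · rw [h1, mul_one, χ_one]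
    have := neg_abs_le (ε s.2)
    linarith

/-! ### Words -/

theorem toWord_mk_mul (l : Fin 2 × Bool) (h : F) :
    (FreeGroup.mk [l] * h).toWord = FreeGroup.reduce (l :: h.toWord) := by
  conv_lhs => rw [← h.mk_toWord]
  rw [FreeGroup.mul_mk, FreeGroup.toWord_mk]
  rfl

/-- Multiplying by a letter changes the first letter of the word only. -/
theorem toWord_step {h : F} {l x : Fin 2 × Bool} {w : List (Fin 2 × Bool)}
    (hw : h.toWord = x :: w) :
    (FreeGroup.mk [l] * h).toWord = w ∨ (FreeGroup.mk [l] * h).toWord = l :: x :: w := by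
  rw [toWord_mk_mul, FreeGroup.reduce.cons, FreeGroup.reduce_toWord, hw]
  dsimp only
  split_ifs
  · left; rfl
  · right; rfl

/-- a letter or the identity -/
theorem letter_of_step {s : F} (h : s.norm ≤ 1) : s = 1 ∨ ∃ l, s = FreeGroup.mk [l] := by
  have h1 : s = FreeGroup.mk s.toWord := s.mk_toWord.symm
  have h2 : s.toWord.length ≤ 1 := h
  match hw : s.toWord with
  | [] =>
    left
    rw [hw] at h1
    rw [h1, ← FreeGroup.one_eq_mk]
  | [l] => right; rw [hw] at h1; exact ⟨l, h1⟩
  | x :: y :: l =>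
    rw [hw] at h2
    simp at h2

/-- A path starting at the vertex `g₀`, where the word of `g₀⁻¹` is `w ++ t`, keeps the ending
`t` during the first `|w|` steps. -/
theorem suffix_path (t : List (Fin 2 × Bool)) (p : ℕ → F) (N : ℕ) (w : List (Fin 2 × Bool))
    (h0 : ((p 0)⁻¹).toWord = w ++ t) (hN : N ≤ w.length)
    (hp : ∀ i < N, ((p i)⁻¹ * p (i + 1)).norm ≤ 1) :
    ∀ i ≤ N, ∃ w', ((p i)⁻¹).toWord = w' ++ t ∧ N - i ≤ w'.length := by
  intro i
  induction i with
  | zero => intro _; exact ⟨w, h0, by simpa using hN⟩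
  | succ i ih =>
    intro hi
    obtain ⟨w', h1, h2⟩ := ih (by omega)
    have h3 := hp i (by omega)
    have h4 : (p (i + 1))⁻¹ = ((p i)⁻¹ * p (i + 1))⁻¹ * (p i)⁻¹ := by group
    rw [h4]
    have h5 : (((p i)⁻¹ * p (i + 1))⁻¹).norm ≤ 1 := by rwa [FreeGroup.norm_inv_eq]
    rcases letter_of_step h5 with h6 | ⟨l, h6⟩
    · rw [h6, one_mul]
      exact ⟨w', h1, by omega⟩
    · rw [h6]
      cases w' with
      | nil => simp only [List.length_nil] at h2; omega
      | cons x w'' =>
        rw [List.cons_append] at h1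
        rcases toWord_step (l := l) h1 with h7 | h7
        · refine ⟨w'', h7, ?_⟩
          simp only [List.length_cons] at h2
          omega
        · refine ⟨l :: x :: w'', h7, ?_⟩
          simp only [List.length_cons] at h2 ⊢
          omega

/-- A path from `a` to `b` in the Cayley tree passes through `1`. -/
theorem through_one (p : ℕ → F) (N : ℕ) (h0 : p 0 = a) (hN : p N = b)
    (hp : ∀ i < N, ((p i)⁻¹ * p (i + 1)).norm ≤ 1) : ∃ i ≤ N, p i = 1 := by
  by_contra hcon
  push Not at hcon
  have key : ∀ i ≤ N, ∃ w, ((p i)⁻¹).toWord = w ++ [((0 : Fin 2), false)] := by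
    intro i
    induction i with
    | zero =>
      intro _
      refine ⟨[], ?_⟩
      rw [h0, a]
      rfl
    | succ i ih =>
      intro hi
      obtain ⟨w', h1⟩ := ih (by omega)
      have h3 := hp i (by omega)
      have h4 : (p (i + 1))⁻¹ = ((p i)⁻¹ * p (i + 1))⁻¹ * (p i)⁻¹ := by group
      have h5 : (((p i)⁻¹ * p (i + 1))⁻¹).norm ≤ 1 := by rwa [FreeGroup.norm_inv_eq]
      rcases letter_of_step h5 with h6 | ⟨l, h6⟩
      · rw [h4, h6, one_mul]
        exact ⟨w', h1⟩
      · cases w' with
        | nil =>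
          rw [List.nil_append] at h1
          rcases toWord_step (l := l) h1 with h7 | h7
          · exfalso
            apply hcon (i + 1) hi
            rw [← inv_eq_one, h4, h6]
            exact FreeGroup.toWord_eq_nil_iff.1 h7
          · rw [h4, h6]
            exact ⟨[l], h7⟩
        | cons x w'' =>
          rw [List.cons_append] at h1
          rw [h4, h6]
          rcases toWord_step (l := l) h1 with h7 | h7
          · exact ⟨w'', h7⟩
          · exact ⟨l :: x :: w'', h7⟩
  obtain ⟨w, hw⟩ := key N le_rfl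
  rw [hN] at hw
  have h1 : (b⁻¹).toWord = [((1 : Fin 2), false)] := by rw [b]; rfl
  rw [h1] at hw
  have h2 := congrArg List.getLast? hw
  simp at h2

/-- letter count -/
theorem count_word (w : List (Fin 2 × Bool)) : 0 ≤ (w.length : ℤ) - χ (FreeGroup.mk w) := by
  induction w with
  | nil => simp [← FreeGroup.one_eq_mk, χ_one]
  | cons x w ih =>
    have h1 : FreeGroup.mk (x :: w) = FreeGroup.mk [x] * FreeGroup.mk w := by
      rw [FreeGroup.mul_mk]; rfl
    rw [h1, χ_mul, List.length_cons]
    have h2 : χ (FreeGroup.mk [x]) ≤ 1 := by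
      obtain ⟨i, e⟩ := x
      fin_cases i <;> cases e <;> simp [χ]
    push_cast
    linarith

theorem a_pow_eq (n : ℕ) : (a ^ n)⁻¹ = FreeGroup.mk (List.replicate n ((0 : Fin 2), false)) := by
  induction n with
  | zero => simp [← FreeGroup.one_eq_mk]
  | succ n ih =>
    rw [pow_succ, mul_inv_rev, ih, List.replicate_succ]
    have h1 : (a⁻¹ : F) = FreeGroup.mk [((0 : Fin 2), false)] := by rw [a]; rfl
    rw [h1, FreeGroup.mul_mk]
    rfl

theorem b_pow_eq (n : ℕ) : (b ^ n)⁻¹ = FreeGroup.mk (List.replicate n ((1 : Fin 2), false)) := by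
  induction n with
  | zero => simp [← FreeGroup.one_eq_mk]
  | succ n ih =>
    rw [pow_succ, mul_inv_rev, ih, List.replicate_succ]
    have h1 : (b⁻¹ : F) = FreeGroup.mk [((1 : Fin 2), false)] := by rw [b]; rfl
    rw [h1, FreeGroup.mul_mk]
    rfl

theorem toWord_start (n m : ℕ) : ((a ^ m * b ^ n)⁻¹).toWord =
    List.replicate n ((1 : Fin 2), false) ++ List.replicate m ((0 : Fin 2), false) := by
  rw [mul_inv_rev, a_pow_eq, b_pow_eq, FreeGroup.mul_mk, FreeGroup.toWord_mk,
    ← FreeGroup.isReduced_iff_reduce_eq, FreeGroup.IsReduced]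
  rw [List.isChain_append]
  refine ⟨?_, ?_, ?_⟩
  · apply List.isChain_replicate_of_rel
    simp
  · apply List.isChain_replicate_of_rel
    simp
  · intro x hx y hy hxy
    have h1 := List.mem_of_mem_getLast? hx
    have h2 := List.mem_of_mem_head? hy
    rw [List.eq_of_mem_replicate h1, List.eq_of_mem_replicate h2]

/-- the first point -/
def X (n : ℕ) (c : F) : F × F := (a ^ (n + 1) * b ^ n, c)

theorem len_le (n : ℕ) (c : F) (hc1 : (a, c) ∈ S) (hc2 : (b, c⁻¹) ∈ S) :
    wordLen S (X n c) ≤ 2 * n + 1 := by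
  have h1 : X n c = (List.replicate (n + 1) ((a, c) : F × F) ++
      List.replicate n ((b, c⁻¹) : F × F)).prod := by
    rw [List.prod_append, List.prod_replicate, List.prod_replicate]
    refine Prod.ext ?_ ?_
    · simp [X]
    · simp [X, pow_succ']
  rw [h1]
  refine (wordLen_le _ ?_).trans ?_
  · intro s hs
    rcases List.mem_append.1 hs with h | h
    · rw [List.eq_of_mem_replicate h]; exact Or.inl hc1
    · rw [List.eq_of_mem_replicate h]; exact Or.inl hc2
  · simp; omega

theorem len_eq (n : ℕ) (c : F) (hc1 : (a, c) ∈ S) (hc2 : (b, c⁻¹) ∈ S) :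
    wordLen S (X n c) = 2 * n + 1 := by
  refine le_antisymm (len_le n c hc1 hc2) ?_
  have h1 := bound1 (X n c)
  have h2 : ε (X n c).1 = 2 * n + 1 := by
    have h3 : ∀ (g : F) (k : ℕ), ε (g ^ k) = k * ε g := by
      intro g k
      induction k with
      | zero => simp [ε_one]
      | succ k ih => rw [pow_succ, ε_mul, ih]; push_cast; ring
    show ε (a ^ (n + 1) * b ^ n) = 2 * n + 1
    rw [ε_mul, h3, h3, ε_a, ε_b]
    push_cast
    ring
  rw [h2] at h1
  exact_mod_cast h1

theorem norm_of_isStep {s : F × F} (h : s = 1 ∨ IsStep S s) : s.1.norm ≤ 1 ∧ s.2.norm ≤ 1 := by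
  rcases h with rfl | h
  · simp
  rcases h with h | h
  · simp only [S, Set.mem_insert_iff, Set.mem_singleton_iff] at h
    rcases h with rfl | rfl | rfl | rfl | rfl | rfl <;> simp [norm_a, norm_b]
  · rw [← FreeGroup.norm_inv_eq (x := s.1), ← FreeGroup.norm_inv_eq (x := s.2)]
    simp only [S, Set.mem_insert_iff, Set.mem_singleton_iff, Prod.ext_iff, Prod.fst_inv,
      Prod.snd_inv] at h
    rcases h with h | h | h | h | h | h <;> rw [h.1, h.2] <;> simp [norm_a, norm_b]

theorem dist_XY (n : ℕ) : wordLen S ((X n a)⁻¹ * X n b) = 2 := by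
  have h1 : (X n a)⁻¹ * X n b = (1, a⁻¹ * b) := by
    refine Prod.ext ?_ ?_
    · simp [X]
    · simp [X]
  rw [h1]
  refine le_antisymm ?_ ?_
  · have h2 : ((1, a⁻¹ * b) : F × F) = [((1, a⁻¹) : F × F), (1, b)].prod := by simp
    rw [h2]
    refine wordLen_le _ ?_
    intro s hs
    simp only [List.mem_cons, List.not_mem_nil, or_false] at hs
    rcases hs with rfl | rfl
    · right; simp [S]
    · left; simp [S]
  · by_contra hlt
    have h3 : (a⁻¹ * b : F).norm = 2 := by rw [a, b]; rfl
    have h4 : wordLen S ((1, a⁻¹ * b) : F × F) = 0 ∨ wordLen S ((1, a⁻¹ * b) : F × F) = 1 := by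
      omega
    rcases h4 with h4 | h4
    · have h5 := eq_one_of_wordLen_eq_zero closure_S h4
      have h6 := (norm_of_isStep (Or.inl h5)).2
      simp only at h6
      omega
    · have h6 := (norm_of_isStep (Or.inr (isStep_of_wordLen_eq_one closure_S h4))).2
      simp only at h6
      omega

/-- The direct product of two free groups of rank two is not almost convex. -/
theorem notAC : NotACLazy S := by
  intro C
  refine ⟨2 * C + 1, X C a, X C b, by omega, len_eq C a (by simp [S]) (by simp [S]),
    len_eq C b (by simp [S]) (by simp [S]), dist_XY C, ?_⟩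
  intro n p hn h0 h1 h2
  have h3 : ∀ i < n, ((p i)⁻¹ * p (i + 1)).1.norm ≤ 1 ∧ ((p i)⁻¹ * p (i + 1)).2.norm ≤ 1 :=
    fun i hi => norm_of_isStep (h2 i hi)
  obtain ⟨i, hi, hi1⟩ := through_one (fun i => (p i).2) n (by show (p 0).2 = a; rw [h0]; rfl)
    (by show (p n).2 = b; rw [h1]; rfl) (fun i hi => (h3 i hi).2)
  refine ⟨i, hi, ?_⟩
  obtain ⟨w, hw, -⟩ := suffix_path (List.replicate (C + 1) ((0 : Fin 2), false))
    (fun i => (p i).1) n (List.replicate C ((1 : Fin 2), false))
    (by show ((p 0).1⁻¹).toWord = _; rw [h0]; exact toWord_start C (C + 1))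
    (by simpa using hn) (fun i hi => (h3 i hi).1) i hi
  have h4 := bound2 (p i)
  rw [hi1, ε_one, sub_zero] at h4
  have h5 : ((p i).1.norm : ℤ) + χ (p i).1 ≥ 2 * (C + 1) := by
    have h6 : (p i).1.norm = w.length + (C + 1) := by
      rw [← FreeGroup.norm_inv_eq, FreeGroup.norm, hw, List.length_append, List.length_replicate]
    have h7 : χ (p i).1 = - (χ (FreeGroup.mk w) - (C + 1)) := by
      have h8 : (p i).1⁻¹ = FreeGroup.mk w * (a ^ (C + 1))⁻¹ := by
        rw [a_pow_eq, FreeGroup.mul_mk, ← hw, FreeGroup.mk_toWord]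
      have h9 : χ (p i).1 = - χ (p i).1⁻¹ := by rw [χ_inv, neg_neg]
      have h10 : ∀ k : ℕ, χ (a ^ k) = k := by
        intro k
        induction k with
        | zero => simp [χ_one]
        | succ k ih => rw [pow_succ, χ_mul, ih, χ_a]; push_cast; ring
      rw [h9, h8, χ_mul, χ_inv, h10]
      push_cast
      ring
    have h8 := count_word w
    rw [h6, h7]
    push_cast
    linarith
  have h6 : (2 * (C + 1) : ℤ) ≤ wordLen S (p i) := h5.trans h4
  have h7 : 2 * (C + 1) ≤ wordLen S (p i) := by exact_mod_cast h6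
  omega

/-- Every finitely generated group which retracts onto the direct product of two free groups of
rank two has a finite generating set with respect to which it is not almost convex. -/
theorem exists_not_almostConvex {H : Type*} [Group H] [Group.FG H]
    (ρ : H →* F × F) (σ : F × F →* H) (hρ : ∀ q, ρ (σ q) = q) :
    ∃ T : Set H, T.Finite ∧ Subgroup.closure T = ⊤ ∧ ¬ AlmostConvex T :=
  exists_not_almostConvex_of_retract ρ σ hρ S finite_S closure_S notAC

end Pool.Agent.H65R2.AC.Free
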