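import Mathlib

set_option autoImplicit false

/-! The reflection group of a regular right-angled hexagon of the hyperbolic plane, acting on
`ℝ²`, which is identified with the hyperboloid `T² = 1 + Q(p)`, `T > 0`, where
`Q(a, b) = 2 a² - 2 a b + 2 b²`. -/

namespace Pool.Agent.H65R2.AC.Hex

/-- the plane -/
abbrev E2 := ℝ × ℝ

/-- the quadratic form -/
def QQ (p : E2) : ℝ := 2 * p.1 ^ 2 - 2 * p.1 * p.2 + 2 * p.2 ^ 2

/-- the bilinear form -/
def BB (p q : E2) : ℝ := 2 * p.1 * q.1 - p.1 * q.2 - p.2 * q.1 + 2 * p.2 * q.2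

theorem QQ_nonneg (p : E2) : 0 ≤ QQ p := by
  unfold QQ
  nlinarith [sq_nonneg p.1, sq_nonneg p.2, sq_nonneg (p.1 - p.2)]

/-- the time coordinate -/
noncomputable def T (p : E2) : ℝ := Real.sqrt (1 + QQ p)

theorem T_sq (p : E2) : T p ^ 2 = 1 + QQ p := Real.sq_sqrt (by linarith [QQ_nonneg p])
theorem T_pos (p : E2) : 0 < T p := Real.sqrt_pos.2 (by linarith [QQ_nonneg p])
theorem one_le_T (p : E2) : 1 ≤ T p := by
  have h1 := T_sq p
  have h2 := T_pos p
  have h3 := QQ_nonneg p
  nlinarith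

/-- the roots -/
def rt : Fin 6 → ℤ × ℤ := ![(1, 0), (1, 1), (0, 1), (-1, 0), (-1, -1), (0, -1)]

theorem rt_sq (i : Fin 6) :
    2 * (rt i).1 ^ 2 - 2 * (rt i).1 * (rt i).2 + 2 * (rt i).2 ^ 2 = 2 := by
  fin_cases i <;> simp [rt]

/-- the roots as real vectors -/
def r (i : Fin 6) : E2 := ((rt i).1, (rt i).2)

theorem QQ_r (i : Fin 6) : QQ (r i) = 2 := by
  have h := rt_sq i
  have h2 : ((2 * (rt i).1 ^ 2 - 2 * (rt i).1 * (rt i).2 + 2 * (rt i).2 ^ 2 : ℤ) : ℝ) = 2 := by
    rw [h]; norm_num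
  push_cast at h2
  simpa [QQ, r] using h2

/-- the linear function which is `≤ 0` on the half plane bounded by the `i`-th side -/
noncomputable def lam (i : Fin 6) (p : E2) : ℝ := BB p (r i) - T p

theorem BB_sq_le (p q : E2) : BB p q ^ 2 ≤ QQ p * QQ q := by
  unfold BB QQ
  nlinarith [sq_nonneg (p.1 * q.2 - p.2 * q.1)]

/-- the reflection -/
noncomputable def Sf (i : Fin 6) (p : E2) : E2 := p - (2 * lam i p) • r i

theorem BB_sub_smul (p q r : E2) (c : ℝ) : BB (p - c • q) r = BB p r - c * BB q r := by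
  simp [BB]
  ring

theorem QQ_sub_smul (p q : E2) (c : ℝ) : QQ (p - c • q) = QQ p - 2 * c * BB p q + c ^ 2 * QQ q := by
  simp [BB, QQ]
  ring

theorem T_Sf (i : Fin 6) (p : E2) : T (Sf i p) = T p - 2 * lam i p := by
  have h1 : 0 < T p - 2 * lam i p := by
    have h2 := BB_sq_le p (r i)
    rw [QQ_r] at h2
    have h3 := T_sq p
    have h4 := T_pos p
    have h5 : BB p (r i) < 3 / 2 * T p := by
      by_contra hc
      push Not at hc
      nlinarith [QQ_nonneg p]
    unfold lam
    linarith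
  unfold Sf
  rw [T, QQ_sub_smul, QQ_r, Real.sqrt_eq_iff_mul_self_eq_of_pos h1]
  have h3 := T_sq p
  have h6 : BB p (r i) = lam i p + T p := by unfold lam; ring
  rw [h6]
  linarith [h3, sq_nonneg (lam i p)]

theorem BB_r_self (i : Fin 6) : BB (r i) (r i) = 2 := by
  rw [← QQ_r i]
  simp [BB, QQ]
  ring

/-- neighbouring sides -/
def Adj (i j : Fin 6) : Prop := j = i + 1 ∨ i = j + 1

instance (i j : Fin 6) : Decidable (Adj i j) := by unfold Adj; infer_instance

theorem BB_r_adj {i j : Fin 6} (h : Adj i j) : BB (r j) (r i) = 1 := by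
  revert h
  fin_cases i <;> fin_cases j <;> simp [Adj, BB, r, rt] <;> norm_num

theorem lam_Sf (i j : Fin 6) (p : E2) :
    lam i (Sf j p) = lam i p - 2 * lam j p * (BB (r j) (r i) - 1) := by
  rw [lam, T_Sf]
  unfold Sf
  rw [BB_sub_smul]
  unfold lam
  ring

theorem lam_Sf_self (i : Fin 6) (p : E2) : lam i (Sf i p) = - lam i p := by
  rw [lam_Sf, BB_r_self]
  ring

theorem lam_Sf_adj {i j : Fin 6} (h : Adj i j) (p : E2) : lam i (Sf j p) = lam i p := by
  rw [lam_Sf, BB_r_adj h]
  ring

theorem Sf_Sf (i : Fin 6) (p : E2) : Sf i (Sf i p) = p := by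
  have h1 : Sf i (Sf i p) = Sf i p - (2 * lam i (Sf i p)) • r i := rfl
  rw [h1, lam_Sf_self]
  unfold Sf
  module

theorem adj_symm {i j : Fin 6} (h : Adj i j) : Adj j i := Or.symm h

theorem Sf_comm {i j : Fin 6} (h : Adj i j) (p : E2) : Sf i (Sf j p) = Sf j (Sf i p) := by
  have h1 : Sf i (Sf j p) = Sf j p - (2 * lam i (Sf j p)) • r i := rfl
  have h2 : Sf j (Sf i p) = Sf i p - (2 * lam j (Sf i p)) • r j := rfl
  rw [h1, h2, lam_Sf_adj h, lam_Sf_adj (adj_symm h)]
  unfold Sf
  module

/-- the sum of two nonadjacent roots -/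
theorem lam_nonadj {i j : Fin 6} (hij : i ≠ j) (h : ¬ Adj i j) (p : E2) (hj : 0 ≤ lam j p) :
    lam i p < 0 := by
  by_contra hi
  push Not at hi
  have hT := T_sq p
  have hT0 := T_pos p
  have hQ := QQ_nonneg p
  unfold lam at hi hj
  -- the roots are opposite or their sum is a root
  have key : BB p (r i) + BB p (r j) = 0 ∨ ∃ k, BB p (r i) + BB p (r j) = BB p (r k) := by
    revert hij h
    clear hi hj
    fin_cases i <;> fin_cases j <;> simp [Adj, BB, r, rt] <;>
      first
        | (left; ring; done)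
        | (right; refine ⟨0, ?_⟩; simp; ring; done)
        | (right; refine ⟨1, ?_⟩; simp; ring; done)
        | (right; refine ⟨2, ?_⟩; simp; ring; done)
        | (right; refine ⟨3, ?_⟩; simp; ring; done)
        | (right; refine ⟨4, ?_⟩; simp; ring; done)
        | (right; refine ⟨5, ?_⟩; simp; ring)
  rcases key with h1 | ⟨k, h1⟩
  · linarith
  · have h2 : 2 * T p ≤ BB p (r k) := by linarith
    have h3 := BB_sq_le p (r k)
    rw [QQ_r] at h3
    nlinarith

/-- The Coxeter matrix of the hexagon. -/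
def Mx : CoxeterMatrix (Fin 6) where
  M := Matrix.of fun i j => if i = j then 1 else if (j = i + 1 ∨ i = j + 1) then 2 else 0
  isSymm := by
    ext i j
    have key : ∀ i j : Fin 6, (if j = i then 1 else if (i = j + 1 ∨ j = i + 1) then 2 else 0) =
      (if i = j then 1 else if (j = i + 1 ∨ i = j + 1) then 2 else 0) := by decide
    exact key i j
  diagonal := by
    intro i
    simp
  off_diagonal := by
    intro i j h
    rw [Matrix.of_apply, if_neg h]
    split_ifs <;> omega

theorem Mx_self (i : Fin 6) : Mx i i = 1 := Mx.diagonal i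

theorem Mx_adj {i j : Fin 6} (h : Adj i j) : Mx i j = 2 := by
  have key : ∀ i j : Fin 6, (j = i + 1 ∨ i = j + 1) →
      (if i = j then 1 else if (j = i + 1 ∨ i = j + 1) then 2 else 0) = 2 := by decide
  exact key i j h

theorem Mx_nonadj {i j : Fin 6} (hij : i ≠ j) (h : ¬ Adj i j) : Mx i j = 0 := by
  have h' : ¬ (j = i + 1 ∨ i = j + 1) := h
  show (if i = j then 1 else if (j = i + 1 ∨ i = j + 1) then 2 else 0) = 0
  rw [if_neg hij, if_neg h']

/-- the Coxeter group -/
abbrev W : Type := Mx.Group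

/-- the Coxeter system -/
abbrev cs : CoxeterSystem Mx W := Mx.toCoxeterSystem

/-- criterion for liftability -/
theorem isLiftable {G : Type*} [Group G] (f : Fin 6 → G) (h1 : ∀ i, f i * f i = 1)
    (h2 : ∀ i j, Adj i j → f i * f j = f j * f i) : Mx.IsLiftable f := by
  intro i j
  by_cases hij : i = j
  · subst hij
    rw [Mx_self, h1, one_pow]
  · by_cases h : Adj i j
    · rw [Mx_adj h, pow_two]
      calc f i * f j * (f i * f j) = f i * f j * (f j * f i) := by rw [h2 i j h]
        _ = f i * (f j * f j) * f i := by group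
        _ = 1 := by rw [h1, mul_one, h1]
    · rw [Mx_nonadj hij h, pow_zero]

/-- the reflection as a permutation -/
noncomputable def Sp (i : Fin 6) : Equiv.Perm E2 := ⟨Sf i, Sf i, Sf_Sf i, Sf_Sf i⟩

theorem liftable_Sp : Mx.IsLiftable Sp := by
  apply isLiftable
  · intro i
    ext1 p
    exact Sf_Sf i p
  · intro i j h
    ext1 p
    exact Sf_comm h p

/-- the action as a homomorphism -/
noncomputable def actHom : W →* Equiv.Perm E2 := cs.lift ⟨Sp, liftable_Sp⟩

noncomputable instance : MulAction W E2 where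
  smul w p := actHom w p
  one_smul p := by
    show actHom 1 p = p
    rw [map_one]; rfl
  mul_smul v w p := by
    show actHom (v * w) p = actHom v (actHom w p)
    rw [map_mul]; rfl

theorem simple_smul (i : Fin 6) (p : E2) : cs.simple i • p = Sf i p := by
  show actHom (cs.simple i) p = Sf i p
  rw [actHom, CoxeterSystem.lift_apply_simple]
  rfl

end Pool.Agent.H65R2.AC.Hex
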