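import Mathlib
import Pool.Agent.H65R2.AC.Hex

set_option autoImplicit false

/-! The hexagon reflection group: chambers, stabilisers, discreteness, cocompactness. -/

namespace Pool.Agent.H65R2.AC.Hex

/-- the hexagon -/
def P : Set E2 := {q | ∀ i, lam i q ≤ 0}

theorem chamber_aux (n : ℕ) : ∀ w : W, cs.length w = n → ∀ i, ¬ cs.IsLeftDescent w i →
    ∀ q ∈ P, lam i (w • q) ≤ 0 := by
  induction n using Nat.strong_induction_on with
  | _ n ih =>
    intro w hn i hi q hq
    by_cases hw : w = 1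
    · subst hw
      rw [one_smul]
      exact hq i
    · obtain ⟨j, hj⟩ := cs.exists_leftDescent_of_ne_one hw
      have hij : i ≠ j := by
        rintro rfl
        exact hi hj
      have hj1 := (cs.isLeftDescent_iff).1 hj
      have hj2 := (cs.isLeftDescent_iff_not_isLeftDescent_mul).1 hj
      have hw2 : w = cs.simple j * (cs.simple j * w) := by
        rw [cs.simple_mul_simple_cancel_left]
      have h1 : lam j ((cs.simple j * w) • q) ≤ 0 := ih _ (by omega) _ rfl j hj2 q hq
      have h2 : w • q = Sf j ((cs.simple j * w) • q) := by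
        conv_lhs => rw [hw2, mul_smul, simple_smul]
      by_cases hadj : Adj i j
      · rw [h2, lam_Sf_adj hadj]
        refine ih _ (by omega) (cs.simple j * w) rfl i ?_ q hq
        intro hd
        have hd1 := (cs.isLeftDescent_iff).1 hd
        have hi1 := (cs.not_isLeftDescent_iff).1 hi
        have h3 : cs.simple i * w = cs.simple j * (cs.simple i * (cs.simple j * w)) := by
          conv_lhs => rw [hw2]
          rw [← mul_assoc, ← mul_assoc (cs.simple j) (cs.simple i)]
          congr 1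
          have h4 := cs.simple_mul_simple_pow i j
          rw [Mx_adj hadj, pow_two] at h4
          have h5 : cs.simple i * cs.simple j = (cs.simple i * cs.simple j)⁻¹ := by
            rw [eq_inv_iff_mul_eq_one]; exact h4
          rw [h5, mul_inv_rev, cs.inv_simple, cs.inv_simple]
        have h4 := cs.length_simple_mul (cs.simple i * (cs.simple j * w)) j
        rw [← h3] at h4
        omega
      · have h3 : 0 ≤ lam j (w • q) := by
          rw [h2, lam_Sf_self]
          linarith
        exact (lam_nonadj hij hadj _ h3).le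

theorem chamber {w : W} {i : Fin 6} (h : ¬ cs.IsLeftDescent w i) {q : E2} (hq : q ∈ P) :
    lam i (w • q) ≤ 0 := chamber_aux _ w rfl i h q hq

theorem chamber' {w : W} {i : Fin 6} (h : cs.IsLeftDescent w i) {q : E2} (hq : q ∈ P) :
    0 ≤ lam i (w • q) := by
  have h1 := chamber ((cs.isLeftDescent_iff_not_isLeftDescent_mul).1 h) hq
  have h2 : w • q = Sf i ((cs.simple i * w) • q) := by
    rw [mul_smul, simple_smul, Sf_Sf]
  rw [h2, lam_Sf_self]
  linarith

theorem Sf_fix {i : Fin 6} {q : E2} (h : lam i q = 0) : Sf i q = q := by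
  unfold Sf
  rw [h]
  simp

theorem stab_step {w : W} (hw : w ≠ 1) {q : E2} (hq : q ∈ P) (h : w • q = q) :
    ∃ i, cs.length (cs.simple i * w) + 1 = cs.length w ∧ lam i q = 0 ∧
      (cs.simple i * w) • q = q := by
  obtain ⟨i, hi⟩ := cs.exists_leftDescent_of_ne_one hw
  have h1 := chamber' hi hq
  rw [h] at h1
  have h2 : lam i q = 0 := le_antisymm (hq i) h1
  refine ⟨i, (cs.isLeftDescent_iff).1 hi, h2, ?_⟩
  rw [mul_smul, h, simple_smul, Sf_fix h2]

/-- the finite quotient -/
abbrev V4 := Multiplicative (ZMod 2) × Multiplicative (ZMod 2)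

/-- the images of the generators in the finite quotient -/
def χf (i : Fin 6) : V4 :=
  if (i : ℕ) % 2 = 0 then (Multiplicative.ofAdd 1, 1) else (1, Multiplicative.ofAdd 1)

theorem χf_liftable : Mx.IsLiftable χf := by
  apply isLiftable
  · decide
  · intro i j _
    exact mul_comm _ _

/-- the homomorphism to the finite quotient -/
def χ : W →* V4 := cs.lift ⟨χf, χf_liftable⟩

theorem χ_simple (i : Fin 6) : χ (cs.simple i) = χf i := by
  rw [χ, CoxeterSystem.lift_apply_simple]

theorem adj_of_lam {i j : Fin 6} (hij : i ≠ j) {q : E2} (hi : lam i q = 0) (hj : lam j q = 0) :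
    Adj i j := by
  by_contra h
  have := lam_nonadj hij h q hj.ge
  linarith

theorem stab_free {w : W} {q : E2} (hq : q ∈ P) (h : w • q = q) (hχ : χ w = 1) : w = 1 := by
  by_contra hw
  obtain ⟨i, hi1, hi2, hi3⟩ := stab_step hw hq h
  have hw1 : cs.simple i * w ≠ 1 := by
    intro h1
    have h2 : w = cs.simple i := by
      rw [← cs.simple_mul_simple_cancel_left (w := w) i, h1, mul_one]
    rw [h2, χ_simple] at hχ
    have key : ∀ i : Fin 6, χf i ≠ 1 := by decide
    exact key i hχ
  obtain ⟨j, hj1, hj2, hj3⟩ := stab_step hw1 hq hi3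
  have hij : i ≠ j := by
    rintro rfl
    rw [cs.simple_mul_simple_cancel_left] at hj1
    omega
  have hadj := adj_of_lam hij hi2 hj2
  have hw2 : cs.simple j * (cs.simple i * w) ≠ 1 := by
    intro h1
    have h2 : w = cs.simple i * cs.simple j := by
      rw [← cs.simple_mul_simple_cancel_left (w := w) i,
        ← cs.simple_mul_simple_cancel_left (w := cs.simple i * w) j, h1, mul_one]
    rw [h2, map_mul, χ_simple, χ_simple] at hχ
    have key : ∀ i j : Fin 6, Adj i j → χf i * χf j ≠ 1 := by decide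
    exact key i j hadj hχ
  obtain ⟨k, hk1, hk2, -⟩ := stab_step hw2 hq hj3
  have hjk : j ≠ k := by
    rintro rfl
    rw [cs.simple_mul_simple_cancel_left] at hk1
    omega
  by_cases hik : i = k
  · subst hik
    have h4 := cs.simple_mul_simple_pow i j
    rw [Mx_adj hadj, pow_two] at h4
    have h5 : cs.simple i * cs.simple j = cs.simple j * cs.simple i := by
      have h5 : cs.simple i * cs.simple j = (cs.simple i * cs.simple j)⁻¹ := by
        rw [eq_inv_iff_mul_eq_one]; exact h4
      rw [h5, mul_inv_rev, cs.inv_simple, cs.inv_simple]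
    have h6 : cs.simple i * (cs.simple j * (cs.simple i * w)) = cs.simple j * w := by
      rw [← mul_assoc, h5, mul_assoc, cs.simple_mul_simple_cancel_left]
    rw [h6] at hk1
    have h7 := cs.length_simple_mul w j
    omega
  · have h1 := adj_of_lam hik hi2 hk2
    have h2 := adj_of_lam hjk hj2 hk2
    have key : ∀ i j k : Fin 6, i ≠ j → i ≠ k → j ≠ k → Adj i j → Adj i k → Adj j k → False := by
      decide
    exact key i j k hij hik hjk hadj h1 h2

theorem T_zero : T 0 = 1 := by
  unfold T QQ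
  simp

theorem lam_zero (i : Fin 6) : lam i 0 = -1 := by
  rw [lam, T_zero]
  simp [BB]

theorem zero_mem_P : (0 : E2) ∈ P := fun i => by rw [lam_zero]; norm_num

theorem stab_zero {w : W} (h : w • (0 : E2) = 0) : w = 1 := by
  by_contra hw
  obtain ⟨i, hi⟩ := cs.exists_leftDescent_of_ne_one hw
  have h1 := chamber' hi zero_mem_P
  rw [h, lam_zero] at h1
  linarith

/-- the hyperbolic cosine of the distance -/
noncomputable def ip (p q : E2) : ℝ := T p * T q - BB p q

theorem BB_comm (p q : E2) : BB p q = BB q p := by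
  unfold BB
  ring

theorem ip_Sf (i : Fin 6) (p q : E2) : ip (Sf i p) (Sf i q) = ip p q := by
  unfold ip
  rw [T_Sf, T_Sf]
  have h1 : BB (Sf i p) (Sf i q) = BB p q - 2 * lam i q * BB p (r i) - 2 * lam i p * BB q (r i)
      + 4 * lam i p * lam i q * 2 := by
    have h2 : BB (Sf i p) (Sf i q) = BB p (Sf i q) - 2 * lam i p * BB (r i) (Sf i q) := by
      rw [Sf, BB_sub_smul]
    rw [h2, BB_comm p, BB_comm (r i) (Sf i q)]
    have h3 : BB (Sf i q) p = BB q p - 2 * lam i q * BB (r i) p := by
      rw [Sf, BB_sub_smul]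
    have h4 : BB (Sf i q) (r i) = BB q (r i) - 2 * lam i q * BB (r i) (r i) := by
      rw [Sf, BB_sub_smul]
    rw [h3, h4, BB_r_self, BB_comm q p, BB_comm (r i) p]
    ring
  rw [h1]
  have h5 : BB p (r i) = lam i p + T p := by unfold lam; ring
  have h6 : BB q (r i) = lam i q + T q := by unfold lam; ring
  rw [h5, h6]
  ring

theorem ip_smul (w : W) (p q : E2) : ip (w • p) (w • q) = ip p q := by
  refine cs.simple_induction_left (p := fun w => ip (w • p) (w • q) = ip p q) w ?_ ?_
  · rw [one_smul, one_smul]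
  · intro w i h
    rw [mul_smul, mul_smul, simple_smul, simple_smul, ip_Sf, h]

theorem ip_zero_left (p : E2) : ip 0 p = T p := by
  unfold ip
  rw [T_zero]
  simp [BB]

theorem ip_comm (p q : E2) : ip p q = ip q p := by
  unfold ip
  rw [BB_comm, mul_comm]

theorem T_le_ip (x y : E2) : T x ≤ 2 * T y * ip y x := by
  have h1 := BB_sq_le y x
  have hx := T_sq x
  have hy := T_sq y
  have hx0 := T_pos x
  have hy0 := T_pos y
  have hy1 := one_le_T y
  have hQx : QQ x = T x ^ 2 - 1 := by linarith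
  have hQy : QQ y = T y ^ 2 - 1 := by linarith
  rw [hQx, hQy] at h1
  have h2 : 2 * T y * BB y x ≤ (2 * T y ^ 2 - 1) * T x := by
    apply le_of_sq_le_sq _ (by nlinarith)
    calc (2 * T y * BB y x) ^ 2 = 4 * T y ^ 2 * BB y x ^ 2 := by ring
      _ ≤ 4 * T y ^ 2 * ((T y ^ 2 - 1) * (T x ^ 2 - 1)) := by
        apply mul_le_mul_of_nonneg_left h1 (by positivity)
      _ ≤ ((2 * T y ^ 2 - 1) * T x) ^ 2 := by
        have e1 : ((2 * T y ^ 2 - 1) * T x) ^ 2 - 4 * T y ^ 2 * ((T y ^ 2 - 1) * (T x ^ 2 - 1))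
          = T x ^ 2 + 4 * T y ^ 2 * (T y ^ 2 - 1) := by ring
        have e2 : 0 ≤ T y ^ 2 - 1 := by nlinarith
        have e3 : 0 ≤ 4 * T y ^ 2 * (T y ^ 2 - 1) := by positivity
        nlinarith [sq_nonneg (T x)]
  unfold ip
  nlinarith

theorem T_smul_zero_le (w : W) (p : E2) : T (w • (0 : E2)) ≤ 2 * T (w • p) * T p := by
  have h := T_le_ip (w • (0 : E2)) (w • p)
  rw [ip_smul, ip_comm, ip_zero_left] at h
  exact h

theorem T_smul_le (w : W) (p : E2) : T (w • p) ≤ 2 * T (w • (0 : E2)) * T p := by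
  have h := T_le_ip (w • p) (w • (0 : E2))
  rw [ip_smul, ip_zero_left] at h
  exact h

/-- the orbit of `0` is integral -/
theorem integral (w : W) : ∃ a b t : ℤ, w • (0 : E2) = ((a : ℝ), (b : ℝ)) ∧
    T (w • (0 : E2)) = t := by
  refine cs.simple_induction_left (p := fun w => ∃ a b t : ℤ, w • (0 : E2) = ((a : ℝ), (b : ℝ)) ∧
    T (w • (0 : E2)) = t) w ?_ ?_
  · refine ⟨0, 0, 1, ?_, ?_⟩
    · rw [one_smul, Int.cast_zero]; rfl
    · rw [one_smul, T_zero]; simp
  · rintro w i ⟨a, b, t, h1, h2⟩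
    obtain ⟨l, hl⟩ : ∃ l : ℤ, lam i (w • (0 : E2)) = l := by
      refine ⟨2 * a * (rt i).1 - a * (rt i).2 - b * (rt i).1 + 2 * b * (rt i).2 - t, ?_⟩
      rw [lam, h2, h1]
      simp [BB, r]
    refine ⟨a - 2 * l * (rt i).1, b - 2 * l * (rt i).2, t - 2 * l, ?_, ?_⟩
    · rw [mul_smul, simple_smul, Sf, hl, h1]
      simp [r]
    · rw [mul_smul, simple_smul, T_Sf, hl, h2]
      push_cast
      ring

theorem sq_le_QQ (p : E2) : p.1 ^ 2 ≤ QQ p ∧ p.2 ^ 2 ≤ QQ p := by
  unfold QQ
  constructor
  · nlinarith [sq_nonneg (p.1 - p.2), sq_nonneg p.2]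
  · nlinarith [sq_nonneg (p.1 - p.2), sq_nonneg p.1]

theorem abs_le_T (p : E2) : |p.1| ≤ T p ∧ |p.2| ≤ T p := by
  have h1 := sq_le_QQ p
  have h2 := T_sq p
  have h3 := T_pos p
  constructor
  · apply abs_le_of_sq_le_sq _ h3.le
    linarith [h1.1]
  · apply abs_le_of_sq_le_sq _ h3.le
    linarith [h1.2]

theorem finite_of_T_le (R : ℝ) : {w : W | T (w • (0 : E2)) ≤ R}.Finite := by
  have hinj : Set.InjOn (fun w : W => w • (0 : E2)) {w : W | T (w • (0 : E2)) ≤ R} := by
    intro v _ w _ h
    have h1 : (w⁻¹ * v) • (0 : E2) = 0 := by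
      rw [mul_smul, show v • (0 : E2) = w • (0 : E2) from h, inv_smul_smul]
    have h2 := stab_zero h1
    rw [inv_mul_eq_one] at h2
    exact h2.symm
  apply Set.Finite.of_finite_image _ hinj
  set N : ℤ := ⌈R⌉ with hN
  have hfin : ((Set.Icc (-N) N ×ˢ Set.Icc (-N) N) : Set (ℤ × ℤ)).Finite :=
    (Set.finite_Icc _ _).prod (Set.finite_Icc _ _)
  refine (hfin.image (fun z : ℤ × ℤ => (((z.1 : ℝ), (z.2 : ℝ)) : E2))).subset ?_
  rintro _ ⟨w, hw, rfl⟩
  obtain ⟨a, b, t, h1, -⟩ := integral w
  have hw' : T (w • (0 : E2)) ≤ R := hw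
  have h2 := abs_le_T (w • (0 : E2))
  have h3 : |(a : ℝ)| ≤ (N : ℝ) := by
    have := h2.1
    rw [h1] at this hw'
    exact this.trans (hw'.trans (Int.le_ceil R))
  have h4 : |(b : ℝ)| ≤ (N : ℝ) := by
    have := h2.2
    rw [h1] at this hw'
    exact this.trans (hw'.trans (Int.le_ceil R))
  refine ⟨(a, b), ⟨?_, ?_⟩, h1.symm⟩
  · have : |a| ≤ N := by exact_mod_cast h3
    exact abs_le.1 this
  · have : |b| ≤ N := by exact_mod_cast h4
    exact abs_le.1 this

/-- the translates of the hexagon cover the plane -/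
theorem exists_mem_P (p : E2) : ∃ w : W, w • p ∈ P := by
  have hfin : {w : W | T (w • p) ≤ T p}.Finite := by
    refine (finite_of_T_le (2 * T p * T p)).subset ?_
    intro w hw
    have h1 := T_smul_zero_le w p
    have h2 : T (w • p) ≤ T p := hw
    have h3 := T_pos p
    have h4 : 2 * T (w • p) * T p ≤ 2 * T p * T p := by nlinarith
    exact h1.trans h4
  obtain ⟨w, hw, hmin⟩ := Set.exists_min_image _ (fun w : W => T (w • p)) hfin
    ⟨1, by show T ((1 : W) • p) ≤ T p; rw [one_smul]⟩
  refine ⟨w, fun i => ?_⟩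
  by_contra hi
  push Not at hi
  have hw' : T (w • p) ≤ T p := hw
  have h1 : T ((cs.simple i * w) • p) = T (w • p) - 2 * lam i (w • p) := by
    rw [mul_smul, simple_smul, T_Sf]
  have h2 := hmin (cs.simple i * w) (by
    show T ((cs.simple i * w) • p) ≤ T p
    linarith)
  linarith

/-- the hexagon is bounded -/
theorem T_le_of_mem_P {q : E2} (hq : q ∈ P) : T q ^ 2 ≤ 3 := by
  have hT := T_sq q
  have hT0 := T_pos q
  have h0 := hq 0
  have h1 := hq 1
  have h2 := hq 2
  have h3 := hq 3
  have h4 := hq 4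
  have h5 := hq 5
  simp only [lam, BB, r, rt, Matrix.cons_val_zero, Matrix.cons_val_one, Matrix.cons_val,
    Int.cast_one, Int.cast_zero, Int.cast_neg] at h0 h1 h2 h3 h4 h5
  obtain ⟨a, b⟩ := q
  unfold QQ at hT
  set t := T (a, b) with ht
  set α := 2 * a - b with hα
  set γ := 2 * b - a with hγ
  have e1 : α ≤ t := by linarith
  have e2 : -t ≤ α := by linarith
  have e3 : γ ≤ t := by linarith
  have e4 : -t ≤ γ := by linarith
  have e5 : α + γ ≤ t := by linarith
  have e6 : -t ≤ α + γ := by linarith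
  have f1 : α ^ 2 ≤ t ^ 2 := by nlinarith
  have f2 : γ ^ 2 ≤ t ^ 2 := by nlinarith
  have f3 : (α + γ) ^ 2 ≤ t ^ 2 := by nlinarith
  have hQ : 3 * (2 * a ^ 2 - 2 * a * b + 2 * b ^ 2) = 2 * (α ^ 2 + α * γ + γ ^ 2) := by
    rw [hα, hγ]; ring
  -- α² + αγ + γ² ≤ max
  have key : α ^ 2 + α * γ + γ ^ 2 ≤ t ^ 2 := by
    rcases le_total 0 (α * γ) with h | h
    · nlinarith
    · rcases le_total (α ^ 2) (γ ^ 2) with h' | h'
      · have : α ^ 2 + α * γ ≤ 0 := by
          have h6 : α ^ 2 * α ^ 2 ≤ (α * γ) ^ 2 := by nlinarith [sq_nonneg α]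
          have h7 : α ^ 2 ≤ |α * γ| := by
            apply le_of_sq_le_sq _ (abs_nonneg _)
            rw [sq_abs]
            nlinarith
          rw [abs_of_nonpos h] at h7
          linarith
        linarith
      · have : γ ^ 2 + α * γ ≤ 0 := by
          have h6 : γ ^ 2 * γ ^ 2 ≤ (α * γ) ^ 2 := by nlinarith [sq_nonneg γ]
          have h7 : γ ^ 2 ≤ |α * γ| := by
            apply le_of_sq_le_sq _ (abs_nonneg _)
            rw [sq_abs]
            nlinarith
          rw [abs_of_nonpos h] at h7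
          linarith
        linarith
  linarith

end Pool.Agent.H65R2.AC.Hex
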