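import Mathlib
import Pool.Agent.H65R2.AC.Free
import Pool.Agent.H65R2.AC.Hex2

set_option autoImplicit false

/-! The torsion free subgroup of the hexagon group and its retraction onto a free group. -/

namespace Pool.Agent.H65R2.AC.Hex

open Pool.Agent.H65R2.AC.Free (F)

/-- The kernel of the map to the finite quotient: a surface group. -/
def Γ₁ : Subgroup W := χ.ker

instance : Group.FG W := by
  rw [Group.fg_iff]
  exact ⟨Set.range cs.simple, cs.subgroup_closure_range_simple, Set.finite_range _⟩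

instance : Finite V4 := inferInstanceAs (Finite (Multiplicative (ZMod 2) × Multiplicative (ZMod 2)))

instance : Γ₁.FiniteIndex := Subgroup.finiteIndex_ker χ

instance : Group.FG Γ₁ := Subgroup.fg_of_index_ne_zero _

/-- `Γ₁` acts freely. -/
theorem free {γ : W} (hγ : γ ∈ Γ₁) {p : E2} (h : γ • p = p) : γ = 1 := by
  obtain ⟨w, hw⟩ := exists_mem_P p
  have h1 : (w * γ * w⁻¹) • (w • p) = w • p := by
    rw [mul_smul, inv_smul_smul, mul_smul, h]
  have h2 : χ (w * γ * w⁻¹) = 1 := by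
    rw [map_mul, map_mul, MonoidHom.mem_ker.1 hγ, mul_one, map_inv, mul_inv_cancel]
  have h3 := stab_free hw h1 h2
  rw [mul_inv_eq_one] at h3
  simpa using h3

/-- `Γ₁` acts cocompactly. -/
theorem cocompact : ∃ R : ℝ, ∀ p : E2, ∃ γ ∈ Γ₁, T (γ • p) ≤ R := by
  have hf : (Set.range (fun v : V4 => T ((Classical.epsilon (fun w : W => χ w = v))⁻¹ • (0 : E2)))).Finite :=
    Set.finite_range _
  obtain ⟨R, hR⟩ := hf.bddAbove
  refine ⟨2 * R * 2, fun p => ?_⟩
  obtain ⟨w, hw⟩ := exists_mem_P p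
  set u : W := Classical.epsilon (fun u : W => χ u = χ w) with hu
  have hu1 : χ u = χ w := Classical.epsilon_spec (p := fun u : W => χ u = χ w) ⟨w, rfl⟩
  refine ⟨u⁻¹ * w, ?_, ?_⟩
  · show u⁻¹ * w ∈ χ.ker
    rw [MonoidHom.mem_ker, map_mul, map_inv, hu1, inv_mul_cancel]
  · rw [mul_smul]
    have h1 := T_smul_le u⁻¹ (w • p)
    have h2 : T (u⁻¹ • (0 : E2)) ≤ R := hR ⟨χ w, rfl⟩
    have h3 := T_le_of_mem_P hw
    have h4 : T (w • p) ≤ 2 := by nlinarith [T_pos (w • p)]
    have h5 := T_pos (u⁻¹ • (0 : E2))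
    have h6 := T_pos (w • p)
    calc T (u⁻¹ • w • p) ≤ 2 * T (u⁻¹ • (0 : E2)) * T (w • p) := h1
      _ ≤ 2 * R * 2 := by
        apply mul_le_mul _ h4 h6.le (by linarith)
        linarith

/-! ### The retraction -/

/-- the automorphism of the free group inverting the generators -/
def ι : F →* F := FreeGroup.lift (fun i => (FreeGroup.of i)⁻¹)

theorem ι_ι (g : F) : ι (ι g) = g := by
  have h : ι.comp ι = MonoidHom.id F := by
    ext i
    simp [ι]
  exact DFunLike.congr_fun h g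

theorem ι_a : ι Free.a = Free.a⁻¹ := by simp [ι, Free.a]
theorem ι_b : ι Free.b = Free.b⁻¹ := by simp [ι, Free.b]

/-- the involution `h ↦ g ι(h)` of the free group -/
def tau (g : F) (hg : g * ι g = 1) : Equiv.Perm F where
  toFun h := g * ι h
  invFun h := g * ι h
  left_inv h := by
    show g * ι (g * ι h) = h
    rw [map_mul, ι_ι, ← mul_assoc, hg, one_mul]
  right_inv h := by
    show g * ι (g * ι h) = h
    rw [map_mul, ι_ι, ← mul_assoc, hg, one_mul]

/-- the elements of the free group attached to the sides -/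
def gv : Fin 6 → F := ![1, 1, Free.a, 1, Free.b, 1]

theorem gv_inv (i : Fin 6) : gv i * ι (gv i) = 1 := by
  fin_cases i <;> simp [gv, ι_a, ι_b]

/-- the images of the generators -/
def θf (i : Fin 6) : Equiv.Perm F := if (i : ℕ) % 2 = 0 then tau (gv i) (gv_inv i) else 1

theorem θf_liftable : Mx.IsLiftable θf := by
  apply isLiftable
  · intro i
    unfold θf
    split_ifs
    · ext1 h
      exact (tau (gv i) (gv_inv i)).left_inv h
    · rw [one_mul]
  · intro i j hij
    have key : ∀ i j : Fin 6, Adj i j → (i : ℕ) % 2 ≠ 0 ∨ (j : ℕ) % 2 ≠ 0 := by decide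
    rcases key i j hij with h | h
    · have : θf i = 1 := by unfold θf; rw [if_neg h]
      rw [this, one_mul, mul_one]
    · have : θf j = 1 := by unfold θf; rw [if_neg h]
      rw [this, one_mul, mul_one]

/-- the action of the hexagon group on the free group -/
def θ : W →* Equiv.Perm F := cs.lift ⟨θf, θf_liftable⟩

theorem θ_simple (i : Fin 6) : θ (cs.simple i) = θf i := by
  rw [θ, CoxeterSystem.lift_apply_simple]

theorem θ_form (w : W) : ((χ w).1 = 1 ∧ ∀ h, θ w h = θ w 1 * h) ∨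
    ((χ w).1 ≠ 1 ∧ ∀ h, θ w h = θ w 1 * ι h) := by
  refine cs.simple_induction_left (p := fun w => ((χ w).1 = 1 ∧ ∀ h, θ w h = θ w 1 * h) ∨
    ((χ w).1 ≠ 1 ∧ ∀ h, θ w h = θ w 1 * ι h)) w ?_ ?_
  · left
    refine ⟨by rw [map_one]; rfl, fun h => ?_⟩
    rw [map_one]
    simp
  · intro w i hw
    have h1 : θ (cs.simple i * w) = θf i * θ w := by rw [map_mul, θ_simple]
    have h2 : (χ (cs.simple i * w)).1 = (χf i).1 * (χ w).1 := by
      rw [map_mul, χ_simple]; rfl
    by_cases hi : (i : ℕ) % 2 = 0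
    · have h3 : θf i = tau (gv i) (gv_inv i) := by unfold θf; rw [if_pos hi]
      have h4 : (χf i).1 = Multiplicative.ofAdd 1 := by unfold χf; rw [if_pos hi]
      have h5 : ∀ h, θ (cs.simple i * w) h = gv i * ι (θ w h) := by
        intro h
        rw [h1, h3]
        rfl
      have key1 : (Multiplicative.ofAdd (1 : ZMod 2)) * 1 ≠ 1 := by decide
      have key2 : ∀ c : Multiplicative (ZMod 2), c ≠ 1 → Multiplicative.ofAdd (1 : ZMod 2) * c = 1 := by
        decide
      rcases hw with ⟨h6, h7⟩ | ⟨h6, h7⟩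
      · right
        refine ⟨by rw [h2, h4, h6]; exact key1, fun h => ?_⟩
        rw [h5, h5, h7 h, map_mul, mul_assoc]
      · left
        refine ⟨by rw [h2, h4]; exact key2 _ h6, fun h => ?_⟩
        rw [h5, h5, h7 h, map_mul, ι_ι, mul_assoc]
    · have h3 : θf i = 1 := by unfold θf; rw [if_neg hi]
      have h4 : (χf i).1 = 1 := by unfold χf; rw [if_neg hi]
      rw [h2, h4, one_mul, h1, h3, one_mul]
      exact hw

/-- the retraction -/
def ρ₁ : Γ₁ →* F where
  toFun γ := θ (γ : W) 1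
  map_one' := by simp
  map_mul' γ δ := by
    have h1 : (χ (γ : W)).1 = 1 := by
      have := MonoidHom.mem_ker.1 γ.2
      rw [this]; rfl
    rcases θ_form (γ : W) with ⟨-, h⟩ | ⟨h, -⟩
    · rw [Subgroup.coe_mul, map_mul, Equiv.Perm.mul_apply, h]
    · exact absurd h1 h

/-- the section -/
def σ₁ : F →* Γ₁ := FreeGroup.lift ![⟨cs.simple 2 * cs.simple 0, by
    show _ ∈ χ.ker
    rw [MonoidHom.mem_ker, map_mul, χ_simple, χ_simple]; decide⟩,
  ⟨cs.simple 4 * cs.simple 0, by
    show _ ∈ χ.ker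
    rw [MonoidHom.mem_ker, map_mul, χ_simple, χ_simple]; decide⟩]

theorem ρ₁_σ₁ (g : F) : ρ₁ (σ₁ g) = g := by
  have h : ρ₁.comp σ₁ = MonoidHom.id F := by
    ext i
    fin_cases i
    · show ρ₁ (σ₁ (FreeGroup.of 0)) = Free.a
      rw [σ₁, FreeGroup.lift_apply_of]
      show θ (cs.simple 2 * cs.simple 0) 1 = Free.a
      rw [map_mul, θ_simple, θ_simple]
      show gv 2 * ι (gv 0 * ι 1) = Free.a
      simp [gv]
    · show ρ₁ (σ₁ (FreeGroup.of 1)) = Free.b
      rw [σ₁, FreeGroup.lift_apply_of]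
      show θ (cs.simple 4 * cs.simple 0) 1 = Free.b
      rw [map_mul, θ_simple, θ_simple]
      show gv 4 * ι (gv 0 * ι 1) = Free.b
      simp [gv]
  exact DFunLike.congr_fun h g

/-- Every group isomorphic to `Γ₁ × Γ₁` has a finite generating set with respect to which it is not
almost convex. -/
theorem exists_not_almostConvex {H : Type*} [Group H] (e : H ≃* Γ₁ × Γ₁) :
    ∃ S : Set H, S.Finite ∧ Subgroup.closure S = ⊤ ∧ ¬ AlmostConvex S := by
  have : Group.FG H := Group.fg_of_surjective (f := e.symm.toMonoidHom) e.symm.surjective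
  refine Free.exists_not_almostConvex ((MonoidHom.prodMap ρ₁ ρ₁).comp e.toMonoidHom)
    (e.symm.toMonoidHom.comp (MonoidHom.prodMap σ₁ σ₁)) ?_
  rintro ⟨g, h⟩
  show MonoidHom.prodMap ρ₁ ρ₁ (e (e.symm (MonoidHom.prodMap σ₁ σ₁ (g, h)))) = (g, h)
  rw [MulEquiv.apply_symm_apply]
  show (ρ₁ (σ₁ g), ρ₁ (σ₁ h)) = (g, h)
  rw [ρ₁_σ₁, ρ₁_σ₁]

end Pool.Agent.H65R2.AC.Hex
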