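import Mathlib
import Pool.Agent.H65R2.AC.Hex3

set_option autoImplicit false

/-! Smoothness of the action of the hexagon group and invariance of the hyperbolic metric. -/

namespace Pool.Agent.H65R2.AC.Hex

open scoped ContDiff

/-- the hyperbolic metric in the coordinates of the hyperboloid -/
noncomputable def g2 (p u v : E2) : ℝ := BB u v - BB p u * BB p v / (1 + QQ p)

theorem contDiff_QQ : ContDiff ℝ ∞ QQ := by
  unfold QQ
  fun_prop

theorem contDiff_T : ContDiff ℝ ∞ T := by
  unfold T
  refine ContDiff.sqrt ?_ ?_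
  · exact contDiff_const.add contDiff_QQ
  · intro p
    have := QQ_nonneg p
    positivity

theorem contDiff_lam (i : Fin 6) : ContDiff ℝ ∞ (lam i) := by
  unfold lam
  refine ContDiff.sub ?_ contDiff_T
  unfold BB
  fun_prop

theorem contDiff_Sf (i : Fin 6) : ContDiff ℝ ∞ (Sf i) := by
  unfold Sf
  exact contDiff_id.sub ((contDiff_const.mul (contDiff_lam i)).smul contDiff_const)

theorem contDiff_smul (w : W) : ContDiff ℝ ∞ (fun p : E2 => w • p) := by
  refine cs.simple_induction_left (p := fun w => ContDiff ℝ ∞ (fun p : E2 => w • p)) w ?_ ?_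
  · simp only [one_smul]
    exact contDiff_id
  · intro w i h
    have h1 : (fun p : E2 => (cs.simple i * w) • p) = Sf i ∘ (fun p : E2 => w • p) := by
      funext p
      rw [mul_smul, simple_smul]
      rfl
    rw [h1]
    exact (contDiff_Sf i).comp h

/-- the derivative of the time coordinate -/
theorem fderiv_T (p u : E2) : fderiv ℝ T p u = BB p u / T p := by
  have h1 : DifferentiableAt ℝ T p := (contDiff_T.differentiable (by simp)) p
  rw [← h1.lineDeriv_eq_fderiv]
  have h2 : HasDerivAt (fun t : ℝ => T (p + t • u)) (BB p u / T p) 0 := by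
    have h3 : HasDerivAt (fun t : ℝ => 1 + QQ (p + t • u)) (2 * BB p u) 0 := by
      have h4 : (fun t : ℝ => 1 + QQ (p + t • u)) = fun t => 1 + QQ p + t * (2 * BB p u) + t ^ 2 * QQ u := by
        funext t
        simp [QQ, BB]
        ring
      rw [h4]
      have h5 := (((hasDerivAt_id' (0 : ℝ)).mul_const (2 * BB p u)).const_add (1 + QQ p)).fun_add
        (((hasDerivAt_pow 2 (0 : ℝ))).mul_const (QQ u))
      refine h5.congr_deriv ?_
      simp
    have h6 := h3.sqrt (by
      have := QQ_nonneg (p + (0 : ℝ) • u)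
      positivity)
    have h7 : Real.sqrt (1 + QQ (p + (0 : ℝ) • u)) = T p := by
      rw [zero_smul, add_zero]; rfl
    rw [h7] at h6
    refine h6.congr_deriv ?_
    have := T_pos p
    field_simp
  exact h2.deriv

theorem fderiv_BB (p u q : E2) : fderiv ℝ (fun p => BB p q) p u = BB u q := by
  have h1 : DifferentiableAt ℝ (fun p => BB p q) p := by
    unfold BB
    fun_prop
  rw [← h1.lineDeriv_eq_fderiv]
  have h2 : HasDerivAt (fun t : ℝ => BB (p + t • u) q) (BB u q) 0 := by
    have h3 : (fun t : ℝ => BB (p + t • u) q) = fun t => BB p q + t * BB u q := by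
      funext t
      simp [BB]
      ring
    rw [h3]
    simpa using ((hasDerivAt_id (0 : ℝ)).mul_const (BB u q)).const_add (BB p q)
  exact h2.deriv

/-- the derivative of `lam` -/
noncomputable def mu (i : Fin 6) (p u : E2) : ℝ := BB u (r i) - BB p u / T p

theorem fderiv_lam (i : Fin 6) (p u : E2) : fderiv ℝ (lam i) p u = mu i p u := by
  have h1 : DifferentiableAt ℝ (fun p => BB p (r i)) p := by
    unfold BB
    fun_prop
  have h2 : DifferentiableAt ℝ T p := (contDiff_T.differentiable (by simp)) p
  have h3 : lam i = fun p => BB p (r i) - T p := rfl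
  rw [h3, fderiv_fun_sub h1 h2, sub_apply, fderiv_BB, fderiv_T]
  rfl

theorem fderiv_Sf (i : Fin 6) (p u : E2) : fderiv ℝ (Sf i) p u = u - (2 * mu i p u) • r i := by
  have h1 : DifferentiableAt ℝ (fun p => 2 * lam i p) p :=
    (((contDiff_lam i).differentiable (by simp)) p).const_mul 2
  have h2 : Sf i = fun p => p - (2 * lam i p) • r i := rfl
  have h3 : DifferentiableAt ℝ (fun p => (2 * lam i p) • r i) p := h1.smul_const _
  rw [h2, fderiv_fun_sub differentiableAt_fun_id h3, sub_apply]
  have h4 : fderiv ℝ (fun p => (2 * lam i p) • r i) p u = (2 * mu i p u) • r i := by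
    rw [fderiv_smul_const h1, ContinuousLinearMap.smulRight_apply]
    congr 1
    rw [fderiv_const_mul (((contDiff_lam i).differentiable (by simp)) p)]
    rw [smul_apply, fderiv_lam, smul_eq_mul]
  rw [h4]
  simp

theorem g2_eq (p u v : E2) : g2 p u v = BB u v - (BB p u / T p) * (BB p v / T p) := by
  have h1 := T_sq p
  have h2 := T_pos p
  unfold g2
  rw [← h1]
  field_simp

theorem BB_smul_right (p q : E2) (c : ℝ) : BB p (c • q) = c * BB p q := by
  simp [BB]; ring

theorem BB_sub_right (p q q' : E2) : BB p (q - q') = BB p q - BB p q' := by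
  simp [BB]; ring

theorem BB_smul_left (p q : E2) (c : ℝ) : BB (c • p) q = c * BB p q := by
  simp [BB]; ring

theorem BB_sub_left (p p' q : E2) : BB (p - p') q = BB p q - BB p' q := by
  simp [BB]; ring

theorem g2_Sf (i : Fin 6) (p u v : E2) :
    g2 (Sf i p) (fderiv ℝ (Sf i) p u) (fderiv ℝ (Sf i) p v) = g2 p u v := by
  rw [g2_eq, g2_eq, fderiv_Sf, fderiv_Sf, T_Sf]
  have hT := T_pos p
  have hT' : 0 < T p - 2 * lam i p := by rw [← T_Sf]; exact T_pos _
  -- the key computation
  have key : ∀ u : E2, BB (Sf i p) (u - (2 * mu i p u) • r i) / (T p - 2 * lam i p)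
      = BB p u / T p - 2 * mu i p u := by
    intro u
    rw [div_eq_iff hT'.ne']
    unfold Sf
    rw [BB_sub_right, BB_smul_right, BB_sub_left, BB_smul_left, BB_sub_left, BB_smul_left,
      BB_r_self]
    have h1 : BB p (r i) = lam i p + T p := by unfold lam; ring
    have h2 : BB (r i) u = mu i p u + BB p u / T p := by
      rw [BB_comm]; unfold mu; ring
    have h3 : BB p u = (BB p u / T p) * T p := by field_simp
    rw [h1, h2]
    set L := BB p u / T p with hL
    rw [h3]
    ring
  rw [key u, key v]
  have h1 : ∀ u v : E2, BB (u - (2 * mu i p u) • r i) (v - (2 * mu i p v) • r i)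
      = BB u v - 2 * mu i p v * BB u (r i) - 2 * mu i p u * BB v (r i)
        + 8 * mu i p u * mu i p v := by
    intro u v
    rw [BB_sub_right, BB_smul_right, BB_sub_left, BB_smul_left, BB_sub_left, BB_smul_left,
      BB_r_self, BB_comm (r i) v]
    ring
  rw [h1]
  have h2 : BB u (r i) = mu i p u + BB p u / T p := by unfold mu; ring
  have h3 : BB v (r i) = mu i p v + BB p v / T p := by unfold mu; ring
  rw [h2, h3]
  ring

/-- The group acts by isometries. -/
theorem g2_smul (w : W) : ∀ (p u v : E2), g2 (w • p) (fderiv ℝ (fun q : E2 => w • q) p u)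
    (fderiv ℝ (fun q : E2 => w • q) p v) = g2 p u v := by
  refine cs.simple_induction_left (p := fun w => ∀ (p u v : E2), g2 (w • p)
    (fderiv ℝ (fun q : E2 => w • q) p u)
    (fderiv ℝ (fun q : E2 => w • q) p v) = g2 p u v) w ?_ ?_
  · intro p u v
    simp only [one_smul]
    have : fderiv ℝ (fun q : E2 => q) p = ContinuousLinearMap.id ℝ E2 := fderiv_id
    rw [this]
    rfl
  · intro w i h p u v
    have h1 : (fun p : E2 => (cs.simple i * w) • p) = Sf i ∘ (fun p : E2 => w • p) := by
      funext p
      rw [mul_smul, simple_smul]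
      rfl
    have h2 : fderiv ℝ (Sf i ∘ (fun p : E2 => w • p)) p
        = (fderiv ℝ (Sf i) (w • p)).comp (fderiv ℝ (fun p : E2 => w • p) p) :=
      fderiv_comp p (((contDiff_Sf i).differentiable (by simp)) _)
        (((contDiff_smul w).differentiable (by simp)) _)
    rw [h1, h2, mul_smul, simple_smul, ContinuousLinearMap.comp_apply,
      ContinuousLinearMap.comp_apply, g2_Sf, h]

end Pool.Agent.H65R2.AC.Hex
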