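import Mathlib
import Pool.Agent.H65R2.AC.Geo1
import Pool.Agent.Helper831.Quot2

set_option autoImplicit false
set_option maxSynthPendingDepth 3

/-! The product of two surface groups acting on `ℝ⁴`. -/

namespace Pool.Agent.H65R2.AC.Hex

open scoped ContDiff Manifold Topology
open Pool.Agent.Helper831

/-- the model space -/
abbrev E4 : Type := EuclideanSpace ℝ (Fin 4)

/-- the splitting of the model space -/
noncomputable def lin4 : E4 ≃ₗ[ℝ] E2 × E2 where
  toFun y := ((y 0, y 1), (y 2, y 3))
  invFun p := !₂[p.1.1, p.1.2, p.2.1, p.2.2]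
  map_add' x y := rfl
  map_smul' c x := rfl
  left_inv y := by
    ext i
    fin_cases i <;> rfl
  right_inv p := rfl

/-- the splitting of the model space -/
noncomputable def cle : E4 ≃L[ℝ] E2 × E2 := lin4.toContinuousLinearEquiv

/-- the product of two surface groups -/
def Gam : Type := Γ₁ × Γ₁

instance : Group Gam := inferInstanceAs (Group (Γ₁ × Γ₁))

/-- the action on the product of the two planes -/
noncomputable def act (γ : Gam) (y : E4) : E4 :=
  cle.symm ((γ.1 : W) • (cle y).1, (γ.2 : W) • (cle y).2)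

theorem cle_act (γ : Gam) (y : E4) :
    cle (act γ y) = ((γ.1 : W) • (cle y).1, (γ.2 : W) • (cle y).2) := by
  unfold act
  rw [ContinuousLinearEquiv.apply_symm_apply]

noncomputable instance : MulAction Gam E4 where
  smul := act
  one_smul y := by
    show act 1 y = y
    apply cle.injective
    rw [cle_act]
    have h1 : ((1 : Gam).1 : W) = 1 := rfl
    have h2 : ((1 : Gam).2 : W) = 1 := rfl
    rw [h1, h2, one_smul, one_smul]
  mul_smul γ δ y := by
    show act (γ * δ) y = act γ (act δ y)
    apply cle.injective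
    rw [cle_act, cle_act, cle_act]
    have h1 : ((γ * δ : Gam).1 : W) = γ.1 * δ.1 := rfl
    have h2 : ((γ * δ : Gam).2 : W) = γ.2 * δ.2 := rfl
    rw [h1, h2, mul_smul, mul_smul]

theorem smul_def (γ : Gam) (y : E4) : γ • y = act γ y := rfl

theorem cle_smul (γ : Gam) (y : E4) :
    cle (γ • y) = ((γ.1 : W) • (cle y).1, (γ.2 : W) • (cle y).2) := cle_act γ y

instance : SmoothConst Gam E4 where
  smooth γ := by
    have h : (fun y : E4 => γ • y) = fun y =>
      cle.symm ((γ.1 : W) • (cle y).1, (γ.2 : W) • (cle y).2) := rfl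
    rw [h]
    refine cle.symm.contDiff.comp ?_
    exact ((contDiff_smul (γ.1 : W)).comp (contDiff_fst.comp cle.contDiff)).prodMk
      ((contDiff_smul (γ.2 : W)).comp (contDiff_snd.comp cle.contDiff))

instance : ContinuousConstSMul Gam E4 where
  continuous_const_smul γ := (SmoothConst.smooth (E := E4) γ).continuous

theorem Gam_free {γ : Gam} {y : E4} (h : γ • y = y) : γ = 1 := by
  have h1 := congrArg cle h
  rw [cle_smul] at h1
  have h2 := congrArg Prod.fst h1
  have h3 := congrArg Prod.snd h1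
  simp only at h2 h3
  have h4 := free γ.1.2 h2
  have h5 := free γ.2.2 h3
  exact Prod.ext (Subtype.ext h4) (Subtype.ext h5)

instance : IsCancelSMul Gam E4 where
  right_cancel' γ δ y h := by
    have h1 : (δ⁻¹ * γ) • y = y := by rw [mul_smul, h, inv_smul_smul]
    have h2 := Gam_free h1
    rw [inv_mul_eq_one] at h2
    exact h2.symm

theorem finite_Gam (R : ℝ) : {γ : Gam | T ((γ.1 : W) • (0 : E2)) ≤ R ∧
    T ((γ.2 : W) • (0 : E2)) ≤ R}.Finite := by
  have h1 : {γ : Γ₁ | T ((γ : W) • (0 : E2)) ≤ R}.Finite :=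
    (finite_of_T_le R).preimage (Subtype.val_injective.injOn)
  exact h1.prod h1

instance : ProperlyDiscontinuousSMul Gam E4 where
  finite_disjoint_inter_image := by
    intro K L hK hL
    have hc1 : Continuous (fun y : E4 => T (cle y).1) :=
      contDiff_T.continuous.comp (continuous_fst.comp cle.continuous)
    have hc2 : Continuous (fun y : E4 => T (cle y).2) :=
      contDiff_T.continuous.comp (continuous_snd.comp cle.continuous)
    obtain ⟨A, hA⟩ := (hK.image hc1).bddAbove
    obtain ⟨B, hB⟩ := (hK.image hc2).bddAbove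
    obtain ⟨C, hC⟩ := (hL.image hc1).bddAbove
    obtain ⟨D, hD⟩ := (hL.image hc2).bddAbove
    refine (finite_Gam (max (2 * C * A) (2 * D * B))).subset ?_
    rintro γ ⟨z, ⟨y, hy, rfl⟩, hz⟩
    have a1 : T (cle y).1 ≤ A := hA ⟨y, hy, rfl⟩
    have a2 : T (cle y).2 ≤ B := hB ⟨y, hy, rfl⟩
    have a3 : T (cle (γ • y)).1 ≤ C := hC ⟨γ • y, hz, rfl⟩
    have a4 : T (cle (γ • y)).2 ≤ D := hD ⟨γ • y, hz, rfl⟩
    rw [cle_smul] at a3 a4
    simp only at a3 a4
    have b1 := T_smul_zero_le (γ.1 : W) (cle y).1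
    have b2 := T_smul_zero_le (γ.2 : W) (cle y).2
    have p1 := T_pos ((γ.1 : W) • (cle y).1)
    have p2 := T_pos ((γ.2 : W) • (cle y).2)
    have p3 := T_pos (cle y).1
    have p4 := T_pos (cle y).2
    refine ⟨b1.trans ((?_ : _ ≤ 2 * C * A).trans (le_max_left _ _)),
      b2.trans ((?_ : _ ≤ 2 * D * B).trans (le_max_right _ _))⟩
    · apply mul_le_mul _ a1 p3.le (by linarith)
      linarith
    · apply mul_le_mul _ a2 p4.le (by linarith)
      linarith

theorem isCompact_T_le (R : ℝ) : IsCompact {p : E2 | T p ≤ R} := by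
  have h1 : IsClosed {p : E2 | T p ≤ R} := isClosed_le contDiff_T.continuous continuous_const
  refine IsCompact.of_isClosed_subset ((isCompact_Icc (a := -R) (b := R)).prod
    (isCompact_Icc (a := -R) (b := R))) h1 ?_
  intro p hp
  have hp' : T p ≤ R := hp
  have h2 := abs_le_T p
  exact ⟨abs_le.1 (h2.1.trans hp'), abs_le.1 (h2.2.trans hp')⟩

/-- the closed 4-manifold -/
abbrev M4 : Type := MulAction.orbitRel.Quotient Gam E4

instance : CompactSpace M4 := by
  obtain ⟨R, hR⟩ := cocompact
  have hK : IsCompact (cle.symm '' ({p : E2 | T p ≤ R} ×ˢ {p : E2 | T p ≤ R})) :=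
    ((isCompact_T_le R).prod (isCompact_T_le R)).image cle.symm.continuous
  have hproj : Continuous (proj Gam : E4 → M4) := continuous_quot_mk
  have h2 : (proj Gam : E4 → M4) ''
      (cle.symm '' ({p : E2 | T p ≤ R} ×ˢ {p : E2 | T p ≤ R})) = Set.univ := by
    rw [Set.eq_univ_iff_forall]
    intro x
    obtain ⟨y, rfl⟩ := proj_surjective x
    obtain ⟨γ, hγ, h3⟩ := hR (cle y).1
    obtain ⟨δ, hδ, h4⟩ := hR (cle y).2
    set g : Gam := (⟨γ, hγ⟩, ⟨δ, hδ⟩) with hg
    refine ⟨g • y, ⟨cle (g • y), ?_, cle.symm_apply_apply _⟩, proj_smul g y⟩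
    rw [cle_smul]
    exact ⟨h3, h4⟩
  have h3 := hK.image hproj
  rw [h2] at h3
  exact isCompact_univ_iff.1 h3

instance : ConnectedSpace M4 := by
  have h : Function.Surjective (proj Gam : E4 → M4) := proj_surjective
  exact h.connectedSpace continuous_quot_mk

instance : T2Space M4 := inferInstance

theorem isManifold_M4 : IsManifold (𝓡 4) ∞ M4 := inferInstance

/-- The fundamental group of the manifold. -/
theorem exists_pi1_equiv (x : M4) : Nonempty (FundamentalGroup M4 x ≃* Γ₁ × Γ₁) := by
  have hq : IsQuotientCoveringMap (Quotient.mk (MulAction.orbitRel Gam E4)) Gam :=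
    isQuotientCoveringMap_quotientMk_of_properlyDiscontinuousSMul
  obtain ⟨e, he⟩ := hq.surjective x
  have h1 : FundamentalGroup M4 x ≃* Gamᵐᵒᵖ :=
    hq.fundamentalGroupEquiv (x := x) ⟨e, he⟩
  exact ⟨h1.trans (MulEquiv.inv' Gam).symm⟩

/-- The fundamental group of the manifold is not almost convex. -/
theorem exists_not_almostConvex_pi1 (x : M4) : ∃ S : Set (FundamentalGroup M4 x),
    S.Finite ∧ Subgroup.closure S = ⊤ ∧ ¬ AlmostConvex S := by
  obtain ⟨e⟩ := exists_pi1_equiv x
  exact exists_not_almostConvex e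

end Pool.Agent.H65R2.AC.Hex
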