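import Mathlib

set_option autoImplicit false
set_option maxSynthPendingDepth 3

/-! Curvature computation for the metric `K - (K y ⊗ K y) / (1 + K(y, y))`. -/

namespace Pool.Agent.H65R2.AC.Curv

open scoped ContDiff

variable {E : Type*} [NormedAddCommGroup E] [NormedSpace ℝ E]

/-- the hyperbolic metric of the hyperboloid -/
noncomputable def gK (K : E →L[ℝ] E →L[ℝ] ℝ) (y : E) : E →L[ℝ] E →L[ℝ] ℝ :=
  K - (1 + K y y)⁻¹ • (K y).smulRight (K y)

theorem gK_apply (K : E →L[ℝ] E →L[ℝ] ℝ) (y u v : E) :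
    gK K y u v = K u v - (1 + K y y)⁻¹ * (K y u * K y v) := by
  simp [gK]

/-- Cauchy-Schwarz for a semidefinite form -/
theorem cs_of_nonneg {a b c : ℝ} (h : ∀ s t : ℝ, 0 ≤ s ^ 2 * a + 2 * s * t * b + t ^ 2 * c) :
    b ^ 2 ≤ a * c := by
  have ha : 0 ≤ a := by simpa using h 1 0
  have hc : 0 ≤ c := by simpa using h 0 1
  rcases hc.eq_or_lt with hc | hc
  · have hb : b = 0 := by
      by_contra hb
      have h1 := h b (-(a + 1) / 2)
      rw [← hc] at h1
      have : 0 < b ^ 2 := by positivity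
      nlinarith
    rw [hb, ← hc]; simp
  · have h1 := h c (-b)
    have h2 : 0 ≤ c * (a * c - b ^ 2) := by nlinarith
    have := nonneg_of_mul_nonneg_right h2 hc
    linarith

variable (K : E →L[ℝ] E →L[ℝ] ℝ) (hs : ∀ u v, K u v = K v u) (hp : ∀ u, 0 ≤ K u u)
include hs hp

theorem cs (u v : E) : K u v ^ 2 ≤ K u u * K v v := by
  apply cs_of_nonneg
  intro s t
  have h := hp (s • u + t • v)
  simp only [map_add, map_smul, add_apply, smul_apply, smul_eq_mul, hs v u] at h
  nlinarith [h]

omit hs in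
theorem N_pos (y : E) : 0 < 1 + K y y := by linarith [hp y]

omit hs hp in
theorem gK_symm (hs : ∀ u v, K u v = K v u) (y u v : E) : gK K y u v = gK K y v u := by
  rw [gK_apply, gK_apply, hs u v]
  ring

theorem gK_ge (y u : E) : K u u / (1 + K y y) ≤ gK K y u u := by
  have h1 := cs K hs hp y u
  have h2 := N_pos K hp y
  rw [gK_apply, inv_mul_eq_div, le_sub_iff_add_le, ← add_div, div_le_iff₀ h2]
  nlinarith

theorem gK_nonneg (y u : E) : 0 ≤ gK K y u u := by
  refine le_trans ?_ (gK_ge K hs hp y u)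
  exact div_nonneg (hp u) (N_pos K hp y).le

theorem gK_cs (y u v : E) : gK K y u v ^ 2 ≤ gK K y u u * gK K y v v :=
  cs (gK K y) (gK_symm K hs y) (gK_nonneg K hs hp y) u v

omit hs in
theorem contDiff_gK : ContDiff ℝ ∞ (gK K) := by
  unfold gK
  refine contDiff_const.sub ?_
  have h1 : ContDiff ℝ ∞ (fun y : E => K y y) := K.contDiff.clm_apply contDiff_id
  have h2 : ContDiff ℝ ∞ (fun y : E => (1 + K y y)⁻¹) :=
    (contDiff_const.add h1).inv (fun y => (N_pos K hp y).ne')
  exact h2.smul (K.contDiff.smulRight K.contDiff)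

/-- the derivative of the metric coefficients -/
noncomputable def dg (y u v w : E) : ℝ :=
  -((K u v * K y w + K y v * K u w) / (1 + K y y))
    + 2 * K y u * K y v * K y w / (1 + K y y) ^ 2

theorem hasFDerivAt_gK (y v w : E) : ∃ L : E →L[ℝ] ℝ,
    HasFDerivAt (fun z => gK K z v w) L y ∧ ∀ u, L u = dg K y u v w := by
  have h1 : HasFDerivAt (fun z : E => K z v) ((ContinuousLinearMap.apply ℝ ℝ v).comp K) y :=
    ((ContinuousLinearMap.apply ℝ ℝ v).comp K).hasFDerivAt
  have h2 : HasFDerivAt (fun z : E => K z w) ((ContinuousLinearMap.apply ℝ ℝ w).comp K) y :=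
    ((ContinuousLinearMap.apply ℝ ℝ w).comp K).hasFDerivAt
  have h3 : HasFDerivAt (fun z : E => K z z) (K y + K.flip y) y := by
    have := K.hasFDerivAt (x := y)
    have h := this.clm_apply (hasFDerivAt_id y)
    refine h.congr_fderiv ?_
    ext u
    simp
  have h4 : HasFDerivAt (fun z : E => 1 + K z z) (K y + K.flip y) y := h3.const_add 1
  have h5 := (hasDerivAt_inv (N_pos K hp y).ne').comp_hasFDerivAt y h4
  have h6 := (h5.mul (h1.mul h2)).const_sub (K v w)
  have h7 : (fun z => gK K z v w) = fun z => K v w - (1 + K z z)⁻¹ * (K z v * K z w) := by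
    funext z
    exact gK_apply K z v w
  rw [h7]
  refine ⟨_, h6, fun u => ?_⟩
  have hN := N_pos K hp y
  simp only [neg_apply, add_apply, smul_apply, smul_eq_mul, ContinuousLinearMap.comp_apply,
    ContinuousLinearMap.apply_apply, ContinuousLinearMap.flip_apply, Function.comp_apply,
    Pi.mul_apply]
  rw [hs u y]
  unfold dg
  field_simp
  ring

theorem fderiv_gK (y v w u : E) : fderiv ℝ (fun z => gK K z v w) y u = dg K y u v w := by
  obtain ⟨L, h1, h2⟩ := hasFDerivAt_gK K hs hp y v w
  rw [h1.fderiv, h2]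

theorem differentiable_gK (y v w : E) : DifferentiableAt ℝ (fun z => gK K z v w) y := by
  obtain ⟨L, h1, -⟩ := hasFDerivAt_gK K hs hp y v w
  exact h1.differentiableAt

theorem gK_self (y u : E) : gK K y u y = K y u / (1 + K y y) := by
  have hN := N_pos K hp y
  rw [gK_apply, hs u y]
  field_simp
  ring

theorem christoffel (y u v w : E) :
    dg K y u v w + dg K y v u w - dg K y w u v = -2 * gK K y u v * (K y w / (1 + K y y)) := by
  have hN := N_pos K hp y
  rw [gK_apply]
  unfold dg
  rw [hs v u, hs w u, hs w v]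
  field_simp
  ring

theorem curv (y u v w : E) :
    - dg K y u v w + dg K y v u w + gK K y v w * (K y u / (1 + K y y))
      - gK K y u w * (K y v / (1 + K y y)) = 0 := by
  have hN := N_pos K hp y
  rw [gK_apply, gK_apply]
  unfold dg
  rw [hs v u]
  field_simp
  ring

end Pool.Agent.H65R2.AC.Curv
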