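import Mathlib
import Pool.Agent.Helper831.Quot2
import Pool.Agent.Helper993.Metric

set_option autoImplicit false
set_option maxSynthPendingDepth 3
set_option linter.unusedSectionVars false

/-! The smooth Riemannian metric on a quotient induced by an invariant one. -/

open scoped Manifold ContDiff Topology Bundle
open Set Filter Bundle

namespace Pool.Agent.H65R2.AC

open Pool.Agent.Helper831

section
variable {E : Type} [NormedAddCommGroup E] [InnerProductSpace ℝ E] [FiniteDimensional ℝ E]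
variable {Γ : Type} [Group Γ] [MulAction Γ E] [ProperlyDiscontinuousSMul Γ E]
  [ContinuousConstSMul Γ E] [IsCancelSMul Γ E] [SmoothConst Γ E]

/-- the inverse of the trivialization is the derivative of the inverse chart -/
theorem symm_triv {x₀ z : MulAction.orbitRel.Quotient Γ E} (hz : z ∈ (chartAt E x₀).source)
    (v : E) : ((trivializationAt E (TangentSpace 𝓘(ℝ, E)) x₀).symm z v : E)
      = coordVec (chartAt E x₀) (chartAt E x₀ z) v := by
  have h1 := TangentBundle.symmL_trivializationAt (I := 𝓘(ℝ, E)) (x₀ := x₀) (x := z) hz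
  have h3 : mfderivWithin 𝓘(ℝ, E) 𝓘(ℝ, E) (extChartAt 𝓘(ℝ, E) x₀).symm (range 𝓘(ℝ, E))
      (extChartAt 𝓘(ℝ, E) x₀ z) = mfderiv 𝓘(ℝ, E) 𝓘(ℝ, E) (extChartAt 𝓘(ℝ, E) x₀).symm
      (extChartAt 𝓘(ℝ, E) x₀ z) := by
    rw [ModelWithCorners.range_eq_univ, mfderivWithin_univ]
  have h2 : ((trivializationAt E (TangentSpace 𝓘(ℝ, E)) x₀).symmL ℝ z v : E)
      = (mfderiv 𝓘(ℝ, E) 𝓘(ℝ, E) (extChartAt 𝓘(ℝ, E) x₀).symm (extChartAt 𝓘(ℝ, E) x₀ z) v : E) :=
    (congrArg (fun L => (L v : E)) h1).trans (congrArg (fun L => (L v : E)) h3)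
  have h4 : ((trivializationAt E (TangentSpace 𝓘(ℝ, E)) x₀).symm z v : E)
      = ((trivializationAt E (TangentSpace 𝓘(ℝ, E)) x₀).symmL ℝ z v : E) :=
    (Trivialization.symmL_apply (R := ℝ) _ hz v).symm
  refine h4.trans (h2.trans ?_)
  have h5 : ((extChartAt 𝓘(ℝ, E) x₀).symm : E → MulAction.orbitRel.Quotient Γ E)
      = (chartAt E x₀).symm := by
    funext y
    simp only [mfld_simps, extChartAt]
  have h6 : extChartAt 𝓘(ℝ, E) x₀ z = chartAt E x₀ z := by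
    simp only [mfld_simps, extChartAt]
  unfold coordVec
  rw [h5, h6]

theorem inner_symm_triv (B : E → E →L[ℝ] E →L[ℝ] ℝ)
    (hinv : ∀ (δ : Γ) (y u w : E), B (δ • y) (fderiv ℝ (fun z : E => δ • z) y u)
      (fderiv ℝ (fun z : E => δ • z) y w) = B y u w)
    {x₀ z : MulAction.orbitRel.Quotient Γ E} (hz : z ∈ (chartAt E x₀).source) (v w : E) :
    B (chartAt E z z) ((trivializationAt E (TangentSpace 𝓘(ℝ, E)) x₀).symm z v : E)
      ((trivializationAt E (TangentSpace 𝓘(ℝ, E)) x₀).symm z w : E) = B (chartAt E x₀ z) v w := by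
  rw [symm_triv hz, symm_triv hz]
  obtain ⟨δ, h1, h2⟩ := coordVec_quot (chart_mem_atlas E x₀) (chartAt E x₀ z)
  rw [(chartAt E x₀).left_inv hz] at h1
  rw [h1]
  have h3 := h2 v
  have h4 := h2 w
  have h5 : B (δ • chartAt E x₀ z) (coordVec (chartAt E x₀) (chartAt E x₀ z) v : E)
      (coordVec (chartAt E x₀) (chartAt E x₀ z) w : E) = B (chartAt E x₀ z) v w := by
    rw [h3, h4, hinv]
  exact h5

/-- the inner product on the tangent space of the quotient -/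
noncomputable def innerQ (B : E → E →L[ℝ] E →L[ℝ] ℝ) (x : MulAction.orbitRel.Quotient Γ E) :
    TangentSpace 𝓘(ℝ, E) x →L[ℝ] TangentSpace 𝓘(ℝ, E) x →L[ℝ] ℝ := B (chartAt E x x)

theorem contMDiff_innerQ (B : E → E →L[ℝ] E →L[ℝ] ℝ) (hsm : ContDiff ℝ ∞ B)
    (hinv : ∀ (δ : Γ) (y u w : E), B (δ • y) (fderiv ℝ (fun z : E => δ • z) y u)
      (fderiv ℝ (fun z : E => δ • z) y w) = B y u w) :
    ContMDiff 𝓘(ℝ, E) (𝓘(ℝ, E).prod 𝓘(ℝ, E →L[ℝ] E →L[ℝ] ℝ)) ∞
      (fun b : MulAction.orbitRel.Quotient Γ E => TotalSpace.mk' (E →L[ℝ] E →L[ℝ] ℝ)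
        (E := fun y : MulAction.orbitRel.Quotient Γ E =>
          TangentSpace 𝓘(ℝ, E) y →L[ℝ] TangentSpace 𝓘(ℝ, E) y →L[ℝ] ℝ) b (innerQ B b)) := by
  intro x₀
  have hbase : x₀ ∈ (trivializationAt (E →L[ℝ] E →L[ℝ] ℝ)
      (fun y : MulAction.orbitRel.Quotient Γ E =>
        TangentSpace 𝓘(ℝ, E) y →L[ℝ] TangentSpace 𝓘(ℝ, E) y →L[ℝ] ℝ) x₀).baseSet :=
    mem_baseSet_trivializationAt _ _ x₀
  rw [← contMDiffWithinAt_univ,
    Trivialization.contMDiffWithinAt_section (e := trivializationAt (E →L[ℝ] E →L[ℝ] ℝ)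
      (fun y : MulAction.orbitRel.Quotient Γ E =>
        TangentSpace 𝓘(ℝ, E) y →L[ℝ] TangentSpace 𝓘(ℝ, E) y →L[ℝ] ℝ) x₀) _ hbase,
    contMDiffWithinAt_univ]
  have h1 : ContMDiffAt 𝓘(ℝ, E) 𝓘(ℝ, E →L[ℝ] E →L[ℝ] ℝ) ∞
      (fun z : MulAction.orbitRel.Quotient Γ E => B (chartAt E x₀ z)) x₀ := by
    have h2 : ContMDiffAt 𝓘(ℝ, E) 𝓘(ℝ, E) ∞ (chartAt E x₀) x₀ :=
      contMDiffAt_of_mem_maximalAtlas (IsManifold.chart_mem_maximalAtlas x₀)
        (mem_chart_source E x₀)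
    exact (hsm.contMDiff.contMDiffAt).comp x₀ h2
  refine h1.congr_of_eventuallyEq ?_
  have hs : (chartAt E x₀).source ∈ 𝓝 x₀ :=
    (chartAt E x₀).open_source.mem_nhds (mem_chart_source E x₀)
  filter_upwards [hs] with z hz
  have hz1 : z ∈ (trivializationAt E (TangentSpace 𝓘(ℝ, E)) x₀).baseSet := hz
  rw [hom_trivializationAt_apply]
  ext v w
  rw [inCoordinates_apply_eq₂ hz1 hz1 (by simp), Trivialization.linearMapAt_apply,
    if_pos (by simp)]
  exact inner_symm_triv B hinv hz v w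

/-- The smooth Riemannian metric on the quotient `Γ \ E` induced by an invariant one on `E`. -/
noncomputable def quotRM (B : E → E →L[ℝ] E →L[ℝ] ℝ)
    (hsymm : ∀ y u w, B y u w = B y w u) (hpos : ∀ y u, u ≠ 0 → 0 < B y u u)
    (hsm : ContDiff ℝ ∞ B)
    (hinv : ∀ (δ : Γ) (y u w : E), B (δ • y) (fderiv ℝ (fun z : E => δ • z) y u)
      (fderiv ℝ (fun z : E => δ • z) y w) = B y u w) :
    Bundle.ContMDiffRiemannianMetric 𝓘(ℝ, E) ∞ E
      (fun x : MulAction.orbitRel.Quotient Γ E => TangentSpace 𝓘(ℝ, E) x) where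
  inner x := innerQ B x
  symm x v w := hsymm _ v w
  pos x v hv := hpos _ v hv
  isVonNBounded x := Pool.Agent.Helper993.Metric.bounded_of_pos (E := E) (B (chartAt E x x)) (hpos _)
  contMDiff := contMDiff_innerQ B hsm hinv

theorem quotRM_comp (B : E → E →L[ℝ] E →L[ℝ] ℝ)
    (hsymm : ∀ y u w, B y u w = B y w u) (hpos : ∀ y u, u ≠ 0 → 0 < B y u u)
    (hsm : ContDiff ℝ ∞ B)
    (hinv : ∀ (δ : Γ) (y u w : E), B (δ • y) (fderiv ℝ (fun z : E => δ • z) y u)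
      (fderiv ℝ (fun z : E => δ • z) y w) = B y u w)
    {e : OpenPartialHomeomorph (MulAction.orbitRel.Quotient Γ E) E}
    (he : e ∈ atlas E (MulAction.orbitRel.Quotient Γ E)) (y u w : E) :
    (quotRM B hsymm hpos hsm hinv).inner (e.symm y) (mfderiv 𝓘(ℝ, E) 𝓘(ℝ, E) e.symm y u)
      (mfderiv 𝓘(ℝ, E) 𝓘(ℝ, E) e.symm y w) = B y u w := by
  obtain ⟨δ, h1, h2⟩ := coordVec_quot he y
  have h3 : (B (chartAt E (e.symm y) (e.symm y)) (coordVec e y u : E) (coordVec e y w : E) : ℝ)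
      = B y u w := by
    rw [h1, h2, h2, hinv]
  exact h3

end

end Pool.Agent.H65R2.AC
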