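import Mathlib
import Pool.Agent.H65R2.AC.Act
import Pool.Agent.H65R2.AC.Curv
import Pool.Agent.H65R2.AC.Statement
import Pool.Agent.H65R2.AC.QuotMetric

set_option autoImplicit false
set_option maxSynthPendingDepth 3

/-! The Riemannian metric of the closed 4-manifold and its curvature. -/

namespace Pool.Agent.H65R2.AC.Hex

open scoped ContDiff Manifold Topology
open Pool.Agent.Helper831 Pool.Agent.H65R2.AC.Curv

/-- the bilinear form on the plane -/
noncomputable def BBc : E2 →L[ℝ] E2 →L[ℝ] ℝ :=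
  (2 : ℝ) • (ContinuousLinearMap.fst ℝ ℝ ℝ).smulRight (ContinuousLinearMap.fst ℝ ℝ ℝ)
    - (ContinuousLinearMap.fst ℝ ℝ ℝ).smulRight (ContinuousLinearMap.snd ℝ ℝ ℝ)
    - (ContinuousLinearMap.snd ℝ ℝ ℝ).smulRight (ContinuousLinearMap.fst ℝ ℝ ℝ)
    + (2 : ℝ) • (ContinuousLinearMap.snd ℝ ℝ ℝ).smulRight (ContinuousLinearMap.snd ℝ ℝ ℝ)

theorem BBc_apply (u v : E2) : BBc u v = BB u v := by
  simp [BBc, BB]
  ring

/-- first projection -/
noncomputable def p1 : E4 →L[ℝ] E2 := (ContinuousLinearMap.fst ℝ E2 E2).comp (cle : E4 →L[ℝ] E2 × E2)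
/-- second projection -/
noncomputable def p2 : E4 →L[ℝ] E2 := (ContinuousLinearMap.snd ℝ E2 E2).comp (cle : E4 →L[ℝ] E2 × E2)

theorem p1_apply (y : E4) : p1 y = (cle y).1 := rfl
theorem p2_apply (y : E4) : p2 y = (cle y).2 := rfl

/-- the form of the first factor -/
noncomputable def K1 : E4 →L[ℝ] E4 →L[ℝ] ℝ := BBc.bilinearComp p1 p1
/-- the form of the second factor -/
noncomputable def K2 : E4 →L[ℝ] E4 →L[ℝ] ℝ := BBc.bilinearComp p2 p2

theorem K1_apply (u v : E4) : K1 u v = BB (p1 u) (p1 v) := by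
  simp [K1, BBc_apply]
theorem K2_apply (u v : E4) : K2 u v = BB (p2 u) (p2 v) := by
  simp [K2, BBc_apply]

theorem BB_self (p : E2) : BB p p = QQ p := by
  unfold BB QQ
  ring

theorem K1_symm (u v : E4) : K1 u v = K1 v u := by rw [K1_apply, K1_apply, BB_comm]
theorem K2_symm (u v : E4) : K2 u v = K2 v u := by rw [K2_apply, K2_apply, BB_comm]
theorem K1_nonneg (u : E4) : 0 ≤ K1 u u := by rw [K1_apply, BB_self]; exact QQ_nonneg _
theorem K2_nonneg (u : E4) : 0 ≤ K2 u u := by rw [K2_apply, BB_self]; exact QQ_nonneg _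

/-- the projections of the model space -/
noncomputable def π₁ : E4 →L[ℝ] E4 := (cle.symm : E2 × E2 →L[ℝ] E4).comp
  ((ContinuousLinearMap.inl ℝ E2 E2).comp p1)
/-- the projections of the model space -/
noncomputable def π₂ : E4 →L[ℝ] E4 := (cle.symm : E2 × E2 →L[ℝ] E4).comp
  ((ContinuousLinearMap.inr ℝ E2 E2).comp p2)

theorem p1_π₁ (y : E4) : p1 (π₁ y) = p1 y := by simp [p1, π₁]
theorem p1_π₂ (y : E4) : p1 (π₂ y) = 0 := by simp [p1, π₂]
theorem p2_π₁ (y : E4) : p2 (π₁ y) = 0 := by simp [p2, π₁]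
theorem p2_π₂ (y : E4) : p2 (π₂ y) = p2 y := by simp [p2, π₂]

theorem BB_zero_left (q : E2) : BB 0 q = 0 := by simp [BB]

theorem K1_π₁ (x w : E4) : K1 (π₁ x) w = K1 x w := by rw [K1_apply, K1_apply, p1_π₁]
theorem K1_π₂ (x w : E4) : K1 (π₂ x) w = 0 := by rw [K1_apply, p1_π₂, BB_zero_left]
theorem K2_π₁ (x w : E4) : K2 (π₁ x) w = 0 := by rw [K2_apply, p2_π₁, BB_zero_left]
theorem K2_π₂ (x w : E4) : K2 (π₂ x) w = K2 x w := by rw [K2_apply, K2_apply, p2_π₂]

theorem gK1_π₁ (y x w : E4) : gK K1 y (π₁ x) w = gK K1 y x w := by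
  rw [gK_apply, gK_apply, K1_π₁, K1_symm y (π₁ x), K1_π₁, K1_symm x y]
theorem gK1_π₂ (y x w : E4) : gK K1 y (π₂ x) w = 0 := by
  rw [gK_apply, K1_π₂, K1_symm y (π₂ x), K1_π₂]; ring
theorem gK2_π₁ (y x w : E4) : gK K2 y (π₁ x) w = 0 := by
  rw [gK_apply, K2_π₁, K2_symm y (π₁ x), K2_π₁]; ring
theorem gK2_π₂ (y x w : E4) : gK K2 y (π₂ x) w = gK K2 y x w := by
  rw [gK_apply, gK_apply, K2_π₂, K2_symm y (π₂ x), K2_π₂, K2_symm x y]

/-- the metric on the model space: the product of two hyperbolic metrics -/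
noncomputable def B4 (y : E4) : E4 →L[ℝ] E4 →L[ℝ] ℝ := gK K1 y + gK K2 y

theorem B4_apply (y u v : E4) : B4 y u v = gK K1 y u v + gK K2 y u v := rfl

theorem B4_symm (y u v : E4) : B4 y u v = B4 y v u := by
  rw [B4_apply, B4_apply, gK_symm K1 K1_symm, gK_symm K2 K2_symm]

theorem QQ_pos {p : E2} (h : p ≠ 0) : 0 < QQ p := by
  rcases (QQ_nonneg p).eq_or_lt with h0 | h0
  · exfalso
    apply h
    have h1 := sq_le_QQ p
    rw [← h0] at h1
    have h2 : p.1 = 0 := by nlinarith [h1.1, sq_nonneg p.1]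
    have h3 : p.2 = 0 := by nlinarith [h1.2, sq_nonneg p.2]
    exact Prod.ext h2 h3
  · exact h0

theorem B4_pos (y u : E4) (hu : u ≠ 0) : 0 < B4 y u u := by
  rw [B4_apply]
  have h1 := gK_ge K1 K1_symm K1_nonneg y u
  have h2 := gK_ge K2 K2_symm K2_nonneg y u
  have h3 := gK_nonneg K1 K1_symm K1_nonneg y u
  have h4 := gK_nonneg K2 K2_symm K2_nonneg y u
  have hN1 := N_pos K1 K1_nonneg y
  have hN2 := N_pos K2 K2_nonneg y
  by_cases h : p1 u = 0
  · have h5 : p2 u ≠ 0 := by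
      intro h6
      apply hu
      apply cle.injective
      rw [map_zero]
      exact Prod.ext h h6
    have h6 : 0 < K2 u u := by rw [K2_apply, BB_self]; exact QQ_pos h5
    have h7 : 0 < K2 u u / (1 + K2 y y) := div_pos h6 hN2
    linarith
  · have h6 : 0 < K1 u u := by rw [K1_apply, BB_self]; exact QQ_pos h
    have h7 : 0 < K1 u u / (1 + K1 y y) := div_pos h6 hN1
    linarith

theorem contDiff_B4 : ContDiff ℝ ∞ B4 := by
  unfold B4
  exact (contDiff_gK K1 K1_nonneg).add (contDiff_gK K2 K2_nonneg)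

theorem gK1_eq (y u v : E4) : gK K1 y u v = g2 (p1 y) (p1 u) (p1 v) := by
  rw [gK_apply, K1_apply, K1_apply, K1_apply, K1_apply, BB_self, g2]
  ring
theorem gK2_eq (y u v : E4) : gK K2 y u v = g2 (p2 y) (p2 u) (p2 v) := by
  rw [gK_apply, K2_apply, K2_apply, K2_apply, K2_apply, BB_self, g2]
  ring

theorem cle_fderiv (δ : Gam) (y u : E4) : cle (fderiv ℝ (fun z : E4 => δ • z) y u) =
    (fderiv ℝ (fun q : E2 => (δ.1 : W) • q) (p1 y) (p1 u),
      fderiv ℝ (fun q : E2 => (δ.2 : W) • q) (p2 y) (p2 u)) := by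
  have hd : DifferentiableAt ℝ (fun z : E4 => δ • z) y :=
    ((SmoothConst.smooth (E := E4) δ).differentiable (by simp)) y
  have h1 : HasFDerivAt (fun z : E4 => cle (δ • z))
      ((cle : E4 →L[ℝ] E2 × E2).comp (fderiv ℝ (fun z : E4 => δ • z) y)) y :=
    (cle : E4 →L[ℝ] E2 × E2).hasFDerivAt.comp y hd.hasFDerivAt
  have h2 : (fun z : E4 => cle (δ • z)) = fun z => ((δ.1 : W) • p1 z, (δ.2 : W) • p2 z) := by
    funext z
    exact cle_smul δ z
  have hd1 : HasFDerivAt (fun q : E2 => (δ.1 : W) • q)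
      (fderiv ℝ (fun q : E2 => (δ.1 : W) • q) (p1 y)) (p1 y) :=
    (((contDiff_smul (δ.1 : W)).differentiable (by simp)) _).hasFDerivAt
  have hd2 : HasFDerivAt (fun q : E2 => (δ.2 : W) • q)
      (fderiv ℝ (fun q : E2 => (δ.2 : W) • q) (p2 y)) (p2 y) :=
    (((contDiff_smul (δ.2 : W)).differentiable (by simp)) _).hasFDerivAt
  have h3 := (hd1.comp y p1.hasFDerivAt).prodMk (hd2.comp y p2.hasFDerivAt)
  rw [h2] at h1
  have h4 := h1.unique h3
  exact congrArg (fun L => L u) h4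

theorem B4_inv (δ : Gam) (y u w : E4) : B4 (δ • y) (fderiv ℝ (fun z : E4 => δ • z) y u)
    (fderiv ℝ (fun z : E4 => δ • z) y w) = B4 y u w := by
  rw [B4_apply, B4_apply, gK1_eq, gK2_eq, gK1_eq, gK2_eq]
  have h1 : ∀ u : E4, p1 (fderiv ℝ (fun z : E4 => δ • z) y u)
      = fderiv ℝ (fun q : E2 => (δ.1 : W) • q) (p1 y) (p1 u) := by
    intro u
    rw [p1_apply (fderiv ℝ (fun z : E4 => δ • z) y u), cle_fderiv]
  have h2 : ∀ u : E4, p2 (fderiv ℝ (fun z : E4 => δ • z) y u)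
      = fderiv ℝ (fun q : E2 => (δ.2 : W) • q) (p2 y) (p2 u) := by
    intro u
    rw [p2_apply (fderiv ℝ (fun z : E4 => δ • z) y u), cle_fderiv]
  have h3 : p1 (δ • y) = (δ.1 : W) • p1 y := by rw [p1_apply, cle_smul]; rfl
  have h4 : p2 (δ • y) = (δ.2 : W) • p2 y := by rw [p2_apply, cle_smul]; rfl
  rw [h1, h1, h2, h2, h3, h4, g2_smul, g2_smul]

/-- the Riemannian metric of the closed manifold -/
noncomputable def g4 : Metric E4 M4 := quotRM B4 B4_symm B4_pos contDiff_B4 B4_inv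

theorem comp_g4 {e : OpenPartialHomeomorph M4 E4} (he : e ∈ atlas E4 M4) (y u w : E4) :
    comp g4 e y u w = B4 y u w :=
  quotRM_comp B4 B4_symm B4_pos contDiff_B4 B4_inv he y u w

/-- the Christoffel symbols -/
noncomputable def C4 (y u v : E4) : E4 := -(gK K1 y u v) • π₁ y - (gK K2 y u v) • π₂ y

theorem gK1_C4 (y u v w : E4) : gK K1 y (C4 y u v) w = - gK K1 y u v * (K1 y w / (1 + K1 y y)) := by
  unfold C4
  rw [map_sub, map_smul, map_smul, sub_apply, smul_apply, smul_apply, gK1_π₁, gK1_π₂,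
    gK_symm K1 K1_symm y y w, gK_self K1 K1_symm K1_nonneg]
  simp

theorem gK2_C4 (y u v w : E4) : gK K2 y (C4 y u v) w = - gK K2 y u v * (K2 y w / (1 + K2 y y)) := by
  unfold C4
  rw [map_sub, map_smul, map_smul, sub_apply, smul_apply, smul_apply, gK2_π₁, gK2_π₂,
    gK_symm K2 K2_symm y y w, gK_self K2 K2_symm K2_nonneg]
  simp

theorem fderiv_B4 (y v w u : E4) : fderiv ℝ (fun z => B4 z v w) y u
    = dg K1 y u v w + dg K2 y u v w := by
  have h : (fun z => B4 z v w) = fun z => gK K1 z v w + gK K2 z v w := rfl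
  rw [h, fderiv_fun_add (differentiable_gK K1 K1_symm K1_nonneg y v w)
    (differentiable_gK K2 K2_symm K2_nonneg y v w), add_apply,
    fderiv_gK K1 K1_symm K1_nonneg, fderiv_gK K2 K2_symm K2_nonneg]

theorem isChristoffel_C4 {e : OpenPartialHomeomorph M4 E4} (he : e ∈ atlas E4 M4) :
    IsChristoffel g4 e C4 := by
  constructor
  · intro u v
    apply ContDiff.contDiffOn
    unfold C4
    have h1 : ContDiff ℝ ∞ (fun y => gK K1 y u v) :=
      ((contDiff_gK K1 K1_nonneg).clm_apply contDiff_const).clm_apply contDiff_const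
    have h2 : ContDiff ℝ ∞ (fun y => gK K2 y u v) :=
      ((contDiff_gK K2 K2_nonneg).clm_apply contDiff_const).clm_apply contDiff_const
    exact (h1.neg.smul π₁.contDiff).sub (h2.smul π₂.contDiff)
  · intro y _ u v w
    simp only [comp_g4 he]
    rw [fderiv_B4, fderiv_B4, fderiv_B4, B4_apply, gK1_C4, gK2_C4]
    have h1 := christoffel K1 K1_symm K1_nonneg y u v w
    have h2 := christoffel K2 K2_symm K2_nonneg y u v w
    linarith

theorem fderiv_C4 (y v w u : E4) : fderiv ℝ (fun z => C4 z v w) y u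
    = -(dg K1 y u v w • π₁ y + gK K1 y v w • π₁ u) - (dg K2 y u v w • π₂ y + gK K2 y v w • π₂ u) := by
  have a1 := (differentiable_gK K1 K1_symm K1_nonneg y v w).hasFDerivAt
  have a2 := (differentiable_gK K2 K2_symm K2_nonneg y v w).hasFDerivAt
  have b1 := (a1.smul (π₁.hasFDerivAt (x := y))).neg
  have b2 := a2.smul (π₂.hasFDerivAt (x := y))
  have b3 := b1.sub b2
  have h : (fun z => C4 z v w) = fun z => -(gK K1 z v w • π₁ z) - gK K2 z v w • π₂ z := by
    funext z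
    unfold C4
    rw [neg_smul]
  rw [h]
  have b4 := b3.fderiv
  refine (congrArg (fun L => L u) b4).trans ?_
  simp only [sub_apply, neg_apply, add_apply, smul_apply, ContinuousLinearMap.smulRight_apply,
    fderiv_gK K1 K1_symm K1_nonneg, fderiv_gK K2 K2_symm K2_nonneg]
  abel

theorem riem_C4 (y u v w : E4) : riem C4 y u v w =
    (gK K1 y u w • π₁ v - gK K1 y v w • π₁ u) + (gK K2 y u w • π₂ v - gK K2 y v w • π₂ u) := by
  unfold riem
  have h1 : ∀ u v w : E4, C4 y u (C4 y v w) = (gK K1 y v w * (K1 y u / (1 + K1 y y))) • π₁ y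
      + (gK K2 y v w * (K2 y u / (1 + K2 y y))) • π₂ y := by
    intro u v w
    have h2 : C4 y u (C4 y v w) = -(gK K1 y u (C4 y v w)) • π₁ y
      - (gK K2 y u (C4 y v w)) • π₂ y := rfl
    rw [h2, gK_symm K1 K1_symm y u, gK_symm K2 K2_symm y u, gK1_C4, gK2_C4]
    module
  rw [fderiv_C4, fderiv_C4, h1, h1]
  have e1 := curv K1 K1_symm K1_nonneg y u v w
  have e2 := curv K2 K2_symm K2_nonneg y u v w
  have e3 : (- dg K1 y u v w + dg K1 y v u w + gK K1 y v w * (K1 y u / (1 + K1 y y))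
      - gK K1 y u w * (K1 y v / (1 + K1 y y))) • π₁ y = 0 := by rw [e1, zero_smul]
  have e4 : (- dg K2 y u v w + dg K2 y v u w + gK K2 y v w * (K2 y u / (1 + K2 y y))
      - gK K2 y u w * (K2 y v / (1 + K2 y y))) • π₂ y = 0 := by rw [e2, zero_smul]
  rw [← sub_eq_zero]
  have e5 := congrArg₂ (· + ·) e3 e4
  simp only [add_zero] at e5
  rw [← e5]
  module

theorem B4_riem (y u v : E4) : B4 y (riem C4 y u v v) u ≤ 0 := by
  rw [riem_C4, B4_apply]
  have h1 := gK_cs K1 K1_symm K1_nonneg y u v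
  have h2 := gK_cs K2 K2_symm K2_nonneg y u v
  simp only [map_add, map_sub, map_smul, add_apply, sub_apply, smul_apply, smul_eq_mul,
    gK1_π₁, gK1_π₂, gK2_π₁, gK2_π₂, mul_zero, add_zero, zero_add, sub_self]
  rw [gK_symm K1 K1_symm y v u, gK_symm K2 K2_symm y v u]
  nlinarith

theorem B4_cs (y u v : E4) : B4 y u v ^ 2 ≤ B4 y u u * B4 y v v :=
  Curv.cs (B4 y) (B4_symm y) (fun u => by
    rw [B4_apply]
    exact add_nonneg (gK_nonneg K1 K1_symm K1_nonneg y u) (gK_nonneg K2 K2_symm K2_nonneg y u)) u v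

/-- the metric has nonpositive curvature -/
theorem nonposCurved_g4 : NonposCurved g4 := by
  intro e he
  refine ⟨C4, isChristoffel_C4 he, ?_⟩
  intro y _ u v _
  unfold sec
  simp only [comp_g4 he]
  apply div_nonpos_of_nonpos_of_nonneg (B4_riem y u v)
  have := B4_cs y u v
  linarith

end Pool.Agent.H65R2.AC.Hex
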